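import Pool.Agent.H847.PG.Defs
import Pool.Graph.R_seed8.Y121.AHS.Defs

/-!
# The Hodge classes as a system, and quotients: definitions
-/

open CategoryTheory AlgebraicGeometry

universe u

namespace Pool.Agent.H847.PG

open Pool.Agent.H914 Pool.Agent.H914.VarClass Pool.Agent.H914.VarClass.Obj
  Pool.Agent.H914.WeilCohomology
open Pool.Agent.Y163 (pw)

/-- The quotients `t n / s n` have the exact order of growth `n ^ e`. -/
def QuotientOrder (e : ℝ) (t s : ℕ → ℕ) : Prop :=
  ∃ c C : ℝ, 0 < c ∧ ∀ n : ℕ, c * ((n : ℝ) + 1) ^ e * s n ≤ t n ∧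
    (t n : ℝ) ≤ C * ((n : ℝ) + 1) ^ e * s n

variable {k : Type u} [Field k] {𝒱 : VarClass k} {ops : CycleOps 𝒱}
  {W : WeilCohomology.{u, 0} ops}

/-- The spaces of the classes of degree `2 j` with a property. -/
def spanSys (P : ∀ X : 𝒱.Obj, ℕ → W.H X → Prop) : Classes W :=
  fun X j => Submodule.span W.K {c | P X j c}

/-- The spaces `H^(p,q)(X)` of a Hodge theory. -/
def typesOf (T : Pool.Agent.Y121.AHS.HodgeTheory ops) : HTypes T.W :=
  fun X p q => (T.pq X p q : Submodule ℂ (Pool.Agent.Y121.AHS.HL T.W ℂ X))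

variable [Algebra W.K ℂ]

/-- The spaces of the Hodge classes of degree `2 j` on `X`. -/
def hodgeSys (pq : HTypes W) : Classes W :=
  fun X j => Submodule.span W.K {c | IsHodge pq X j c}

end Pool.Agent.H847.PG
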