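import Pool.Agent.H847.PG.Conv2

/-!
# The group: conversion
-/

set_option linter.unusedSectionVars false
set_option linter.unusedVariables false

open CategoryTheory AlgebraicGeometry CategoryTheory.Limits TensorProduct

universe u v w

namespace Pool.Agent.H847.PG

open Pool.Agent.H914 Pool.Agent.H447 Pool.Agent.W534 Pool.Agent.Y163 VarClass Obj WeilCohomology
  Module
open Pool.Agent.Y121 Pool.Agent.Y121.AHS Pool.Agent.R914.UN
open Pool.Agent.Y133.Half (Sys PH Ev Adj ClassPred dimBy)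
open Pool.Agent.R920.MT (Property Linear IsSubspace)

variable {k : Type u} [Field k] {𝒱 : VarClass k} {ops : CycleOps 𝒱}
  {W : WeilCohomology.{u, 0} ops} [Algebra W.K ℂ] {X Y : 𝒱.Obj}

/-- The conversion of the endomorphisms. -/
def cvE (g : ExtEnd W.K (W.H X)) : Module.End (baseW W ℂ).K ((baseW W ℂ).H X) := g

lemma cross_eq (x : Ext W.K ℂ (W.H X)) (y : Ext W.K ℂ (W.H Y)) :
    (show (baseW W ℂ).H (X.prod Y) from cross (W.map (fst X Y)) (W.map (snd X Y)) x y) =
      (baseW W ℂ).map (fst X Y) x * (baseW W ℂ).map (snd X Y) y := by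
  have h1 := map_eq W ℂ (fst X Y) x
  have h2 := map_eq W ℂ (snd X Y) y
  exact (congrArg₂ (· * ·) h1 h2).symm

lemma isTensor_iff (g : ExtEnd W.K (W.H X)) (G : ExtEnd W.K (W.H Y))
    (F : ExtEnd W.K (W.H (X.prod Y))) :
    IsTensor (W.map (fst X Y)) (W.map (snd X Y)) g G F ↔
      cvE F = extOp (baseW W ℂ) (cvE g) (cvE G) := by
  constructor
  · intro h
    apply ext_kunneth_lin
    intro a b
    rw [extOp_tmul, ← cross_eq (W := W) a b]
    refine (h a b).trans ?_
    exact cross_eq (W := W) (app g a) (app G b)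
  · intro h x y
    have h1 := extOp_tmul (W := baseW W ℂ) (cvE g) (cvE G) x y
    rw [← h, ← cross_eq (W := W) x y] at h1
    exact h1.trans (cross_eq (W := W) (app g x) (app G y)).symm

lemma pow_eq (g : PowEnd W X) (h : ∀ n, IsTensor (W.map (fst X (pw X n)))
    (W.map (snd X (pw X n))) (g 0) (g n) (g (n + 1))) :
    ∀ n, cvE (X := pw X n) (g n) = CG.pwOp (baseW W ℂ) (X := X) (cvE (X := pw X 0) (g 0)) n
  | 0 => rfl
  | n + 1 => by
    have h1 := (isTensor_iff (X := X) (Y := pw X n) (g 0) (g n) (g (n + 1))).1 (h n)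
    have h2 := pow_eq g h n
    rw [h2] at h1
    exact h1

/-- The powers of an endomorphism. -/
noncomputable def powOf (g : Module.End (baseW W ℂ).K ((baseW W ℂ).H X)) : PowEnd W X :=
  fun n => (CG.pwOp (baseW W ℂ) g n : Module.End (baseW W ℂ).K ((baseW W ℂ).H (pw X n)))

lemma set_eq (S : Classes W) (X : 𝒱.Obj) (n : ℕ) :
    {F : ExtEnd W.K (W.H (pw X n)) | ∃ g : PowEnd W X, IsInGroup S X g ∧ g n = F} =
      {F : Module.End (baseW W ℂ).K ((baseW W ℂ).H (pw X n)) |
        ∃ g ∈ CG.FixGroup W (toP S) X, F = CG.pwOp (baseW W ℂ) g n} := by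
  ext F
  constructor
  · rintro ⟨g, hg, rfl⟩
    refine ⟨cvE (X := pw X 0) (g 0), ?_, pow_eq g hg.mul n⟩
    intro m j c hc
    rw [← pow_eq g hg.mul m]
    exact hg.fix m j c hc
  · rintro ⟨g, hg, hF⟩
    refine ⟨powOf g, ⟨fun m => ?_, fun m j c hc => ?_⟩, hF.symm⟩
    · exact (isTensor_iff (X := X) (Y := pw X m) _ _ _).2 rfl
    · exact hg m j c hc

theorem groupDim_eq (S : Classes W) (X : 𝒱.Obj) (n : ℕ) :
    groupDim S X n = CG.polyDim W (toP S) X n :=
  congrArg (fun s : Set (Module.End (baseW W ℂ).K ((baseW W ℂ).H (pw X n))) =>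
    Module.finrank (baseW W ℂ).K (Submodule.span (baseW W ℂ).K s)) (set_eq S X n)

end Pool.Agent.H847.PG
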