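import Pool.Agent.H847.PG.ADefs
import Pool.Agent.H847.PG.Conv3
import Pool.Agent.H847.CG.Abs

/-!
# The growth of the Hodge classes and of the absolutely Hodge classes: the groups
-/

set_option linter.unusedSectionVars false
set_option linter.unusedVariables false

open CategoryTheory AlgebraicGeometry CategoryTheory.Limits TensorProduct Matrix Filter

universe u v w

namespace Pool.Agent.H847.PG

open Pool.Agent.H914 Pool.Agent.H447 Pool.Agent.W534 Pool.Agent.Y163 VarClass Obj WeilCohomology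
  Module
open Pool.Agent.Y121 Pool.Agent.Y121.AHS Pool.Agent.R940 Pool.Agent.R914.UN Pool.Agent.R920.MT
open Pool.Agent.Y133.Half (Sys PH Ev Adj ClassPred dimBy)

variable {k : Type u} [Field k] {𝒱 : VarClass k} {ops : CycleOps 𝒱}

lemma toP_spanSys {W : WeilCohomology.{u, 0} ops} {P : Property W} (hP : CG.IsClassSystem P) :
    toP (spanSys P) = P := by
  funext X j c
  obtain ⟨V, hV⟩ := hP.lin X j
  have h1 : {c : W.H X | P X j c} = (V : Set (W.H X)) := by
    ext c
    exact (hV c).symm
  have h2 : spanSys P X j = V := by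
    rw [spanSys, h1]
    exact Submodule.span_eq V
  apply propext
  change c ∈ spanSys P X j ↔ _
  rw [h2]
  exact hV c

lemma groupDim_spanSys {W : WeilCohomology.{u, 0} ops} [Algebra W.K ℂ] {P : Property W}
    (hP : CG.IsClassSystem P) (X : 𝒱.Obj) : groupDim (spanSys P) X = CG.polyDim W P X := by
  funext n
  rw [groupDim_eq, toP_spanSys hP]

/-- The growth law for the Hodge classes and for the absolutely Hodge classes. -/
theorem abs_pair (T : HodgeTheory ops) (hpos : NonnegTypes T) (X : 𝒱.Obj)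
    (hsym : HodgeSymmetric T X) [Nontrivial (T.W.H X)] (D : Conjugates T)
    (hpol : ∃ ψ : BilH T X, IsPolarisation T X ψ ∧ CG.GivenBy (IsAbsHodge D) ψ) :
    ∃ d a : ℕ, d ≤ a ∧
      HasOrder (finrank T.W.K (T.W.H X)) d (fun n => hodgeDim T (pw X n)) ∧
      HasPoly d (groupDim (spanSys (Pool.Agent.Y121.AHS.IsHodge T)) X) ∧
      HasOrder (finrank T.W.K (T.W.H X)) a (fun n => absDim D (pw X n)) ∧
      HasPoly a (groupDim (spanSys (IsAbsHodge D)) X) ∧
      QuotientOrder (((a : ℝ) - d) / 2) (fun n => hodgeDim T (pw X n))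
        (fun n => absDim D (pw X n)) ∧
      (a = d ↔ ∃ N : ℕ, 1 ≤ N ∧
        (N = 1 ↔ ∀ n j c, Pool.Agent.Y121.AHS.IsHodge T (pw X n) j c →
          IsAbsHodge D (pw X n) j c) ∧
        NearIndex N (fun n => hodgeDim T (pw X n)) (fun n => absDim D (pw X n))) := by
  obtain ⟨d, a, h1, h2, h3, h4, h5, h6, h7⟩ := CG.abs_law T hpos X hsym D hpol
  refine ⟨d, a, h1, h2, ?_, h4, ?_, h6, h7⟩
  · rw [groupDim_spanSys (W := T.W) (P := Pool.Agent.Y121.AHS.IsHodge T) (CG.isClass_hodge T)]
    exact h3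
  · rw [groupDim_spanSys (W := T.W) (P := IsAbsHodge D) (CG.isClass_abs D)]
    exact h5

end Pool.Agent.H847.PG
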