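import Pool.Agent.H847.PG.Defs
import Pool.Agent.H847.CG.Tate

/-!
# Hodge theories and systems of classes: conversion
-/

set_option linter.unusedSectionVars false
set_option linter.unusedVariables false

open CategoryTheory AlgebraicGeometry CategoryTheory.Limits TensorProduct

universe u v w

namespace Pool.Agent.H847.PG

open Pool.Agent.H914 Pool.Agent.H447 Pool.Agent.W534 Pool.Agent.Y163 VarClass Obj WeilCohomology
  Module
open Pool.Agent.Y121 Pool.Agent.Y121.AHS Pool.Agent.R914.UN
open Pool.Agent.Y133.Half (Sys PH Ev Adj ClassPred dimBy)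

variable {k : Type u} [Field k] {𝒱 : VarClass k} {ops : CycleOps 𝒱}
  {W : WeilCohomology.{u, 0} ops} [Algebra W.K ℂ]

lemma lef_of {K A : Type} [Field K] [Ring A] [Algebra K A] {gr : ℕ → Submodule K A} {n : ℕ}
    {l : A} (h : ∀ i ≤ n, Set.BijOn (fun x => l ^ (n - i) * x) (gr i) (gr (2 * n - i))) :
    HardLef gr n (LinearMap.mulLeft K l) := by
  intro i hi
  refine ⟨fun a ha h0 => ?_, fun b hb => ?_⟩
  · rw [LinearMap.pow_mulLeft, LinearMap.mulLeft_apply] at h0
    refine (h i hi).2.1 ha (Submodule.zero_mem _) ?_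
    change l ^ (n - i) * a = l ^ (n - i) * 0
    rw [h0, mul_zero]
  · obtain ⟨a, ha, hab⟩ := (h i hi).2.2 hb
    exact ⟨a, ha, by rw [LinearMap.pow_mulLeft, LinearMap.mulLeft_apply]; exact hab⟩

/-- The Hodge theory. -/
noncomputable def toT {pq : HTypes W} (hW : IsHodgeTheory pq) : HodgeTheory ops where
  W := W
  rat := hW.rat
  pq := fun X p q => (pq X p q : Submodule ℂ (HL W ℂ X))
  span := fun X i => (hW.alg X).span i
  indep := fun X => (hW.alg X).indep
  mul := fun X p q r s a b ha hb => (hW.alg X).mul p q r s a b ha hb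
  map := fun X Y f p q b hb => by
    have h := hW.map X Y f p q b hb
    rw [add_zero, add_zero] at h
    exact h
  push := fun X Y f p q d a hd ha => by
    have h := hW.push X Y f p q a ha
    have hd' : (Y.dim : ℤ) - X.dim = d := by omega
    rw [hd'] at h
    exact h
  cyc := hW.cyc
  polar := fun X => by
    obtain ⟨D, h1, h2⟩ := hW.polar X
    exact ⟨D, h1, lef_of h2.lef, fun j x hj hx => h2.rie j x hj hx⟩

variable {pq : HTypes W} (hW : IsHodgeTheory pq) {X : 𝒱.Obj}

lemma nonneg_toT : Pool.Agent.R940.NonnegTypes (toT hW) :=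
  fun X p q h => (hW.alg X).nonneg p q h

/-- The complex conjugation of the coefficients. -/
noncomputable def conjA : ℂ →ₐ[W.K] ℂ := conjAlg (toT hW)

/-- The complex conjugation. -/
noncomputable def conjW (X : 𝒱.Obj) (x : Ext W.K ℂ (W.H X)) : Ext W.K ℂ (W.H X) :=
  conjH (toT hW) (X := X) x

lemma map_smul_conj {K A : Type} [Field K] [Algebra K ℂ] [Ring A] [Algebra K A] (s : ℂ →ₐ[K] ℂ)
    (l : ℂ) (x : ℂ ⊗[K] A) : Algebra.TensorProduct.map s (AlgHom.id K A) (l • x) =
      s l • Algebra.TensorProduct.map s (AlgHom.id K A) x := by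
  refine tmul_induction (P := fun x => Algebra.TensorProduct.map s (AlgHom.id K A) (l • x) =
      s l • Algebra.TensorProduct.map s (AlgHom.id K A) x) ?_ ?_ ?_ x
  · rw [smul_zero, map_zero, smul_zero]
  · intro x y hx hy; rw [smul_add, map_add, hx, hy, map_add, smul_add]
  · intro m a
    rw [TensorProduct.smul_tmul', Algebra.TensorProduct.map_tmul, Algebra.TensorProduct.map_tmul,
      TensorProduct.smul_tmul', smul_eq_mul, smul_eq_mul, map_mul]

lemma map_one_conj {K A : Type} [Field K] [Algebra K ℂ] [Ring A] [Algebra K A] (s : ℂ →ₐ[K] ℂ)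
    (a : A) : Algebra.TensorProduct.map s (AlgHom.id K A) ((1 : ℂ) ⊗ₜ[K] a) = 1 ⊗ₜ[K] a := by
  rw [Algebra.TensorProduct.map_tmul, map_one]
  rfl

lemma isConj_conjW (X : 𝒱.Obj) : IsConj (conjW hW X) where
  add _ _ := map_add (Algebra.TensorProduct.map (conjA hW) (AlgHom.id W.K (W.H X))) _ _
  smul l x := map_smul_conj (conjA hW) l x
  em a := map_one_conj (conjA hW) a

lemma sym_toT (X : 𝒱.Obj) : HodgeSymmetric (toT hW) X :=
  fun p q x h => (hW.alg X).sym _ (isConj_conjW hW X) p q x h

end Pool.Agent.H847.PG
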