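import Pool.Agent.H847.PG.Conv
import Pool.Agent.H847.CG.PDefs

/-!
# Polarisations: conversion
-/

set_option linter.unusedSectionVars false
set_option linter.unusedVariables false

open CategoryTheory AlgebraicGeometry CategoryTheory.Limits TensorProduct

universe u v w

namespace Pool.Agent.H847.PG

open Pool.Agent.H914 Pool.Agent.H447 Pool.Agent.W534 Pool.Agent.Y163 VarClass Obj WeilCohomology
  Module
open Pool.Agent.Y121 Pool.Agent.Y121.AHS Pool.Agent.R914.UN
open Pool.Agent.Y133.Half (Sys PH Ev Adj ClassPred dimBy)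
open Pool.Agent.R920.MT (Property Linear IsSubspace)

section alg

variable {K A B : Type} [Field K] [Ring A] [Algebra K A] [Ring B] [Algebra K B]

/-- The form `(x, y) ↦ tr(γ p(x) q(y))`. -/
noncomputable def formK (tr : B →ₗ[K] K) (p q : A →ₐ[K] B) (γ : B) : LinearMap.BilinForm K A :=
  LinearMap.mk₂ K (fun x y => tr (γ * (p x * q y)))
    (fun x x' y => by rw [map_add, add_mul, mul_add, map_add])
    (fun c x y => by rw [map_smul, smul_mul_assoc, mul_smul_comm, map_smul])
    (fun x y y' => by rw [map_add, mul_add, mul_add, map_add])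
    (fun c x y => by rw [map_smul, mul_smul_comm, mul_smul_comm, map_smul])

lemma formK_apply (tr : B →ₗ[K] K) (p q : A →ₐ[K] B) (γ : B) (x y : A) :
    formK tr p q γ x y = tr (γ * (p x * q y)) := rfl

variable [Algebra K ℂ]

/-- The extension of a functional. -/
noncomputable def fC (tr : B →ₗ[K] K) : (ℂ ⊗[K] B) →ₗ[ℂ] ℂ :=
  (TensorProduct.AlgebraTensorModule.rid K ℂ ℂ).toLinearMap ∘ₗ tr.baseChange ℂ

lemma fC_tmul (tr : B →ₗ[K] K) (l : ℂ) (b : B) : fC tr (l ⊗ₜ[K] b) = tr b • l := rfl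

lemma formC_eq (tr : B →ₗ[K] K) (p q : A →ₐ[K] B) (γ : B) (x y : ℂ ⊗[K] A) :
    formC tr p q γ x y = fC tr (((1 : ℂ) ⊗ₜ[K] γ) *
      (p.toLinearMap.baseChange ℂ x * q.toLinearMap.baseChange ℂ y)) := rfl

lemma form_eq (tr : B →ₗ[K] K) (p q : A →ₐ[K] B) (γ : B) (x y : ℂ ⊗[K] A) :
    (LinearMap.BilinForm.baseChange ℂ (formK tr p q γ)) x y = formC tr p q γ x y := by
  rw [formC_eq]
  refine tmul_induction (P := fun x => (LinearMap.BilinForm.baseChange ℂ (formK tr p q γ)) x y =
    fC tr (((1 : ℂ) ⊗ₜ[K] γ) *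
      (p.toLinearMap.baseChange ℂ x * q.toLinearMap.baseChange ℂ y))) ?_ ?_ ?_ x
  · rw [map_zero, map_zero, zero_mul, mul_zero, map_zero]
    rfl
  · intro x x' hx hx'
    rw [map_add, LinearMap.add_apply, hx, hx', map_add, add_mul, mul_add, map_add]
  · intro l a
    refine tmul_induction (P := fun y => (LinearMap.BilinForm.baseChange ℂ (formK tr p q γ))
      (l ⊗ₜ[K] a) y = fC tr (((1 : ℂ) ⊗ₜ[K] γ) *
        (p.toLinearMap.baseChange ℂ (l ⊗ₜ[K] a) * q.toLinearMap.baseChange ℂ y))) ?_ ?_ ?_ y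
    · rw [map_zero, map_zero, mul_zero, mul_zero, map_zero]
    · intro y y' hy hy'
      rw [map_add, hy, hy', map_add, mul_add, mul_add, map_add]
    · intro m b
      rw [LinearMap.BilinForm.baseChange_tmul, formK_apply, LinearMap.baseChange_tmul,
        LinearMap.baseChange_tmul, Algebra.TensorProduct.tmul_mul_tmul,
        Algebra.TensorProduct.tmul_mul_tmul, fC_tmul, one_mul]
      rfl

end alg

variable {k : Type u} [Field k] {𝒱 : VarClass k} {ops : CycleOps 𝒱}
  {W : WeilCohomology.{u, 0} ops}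

/-- The property given by the system. -/
def toP (S : Classes W) : Property W := fun X j c => c ∈ S X j

lemma span_toP (S : Classes W) (X : 𝒱.Obj) :
    Submodule.span W.K {c | ∃ j, toP S X j c} = ⨆ j, S X j := by
  apply le_antisymm
  · refine Submodule.span_le.2 ?_
    rintro c ⟨j, hj⟩
    exact Submodule.mem_iSup_of_mem j hj
  · refine iSup_le fun j c hc => Submodule.subset_span ⟨j, hc⟩

lemma isClass_toP {S : Classes W} (hS : IsSystem S) : CG.IsClassSystem (toP S) where
  lin X j := ⟨S X j, fun _ => Iff.rfl⟩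
  cyc X j z hz := hS.cyc X j z hz
  mul X i j a b ha hb := (hS.alg X).mul i j a b ha hb
  map X Y f j a ha := hS.map X Y f j a ha
  push X Y f j l a h ha := hS.push X Y f j l a h ha
  deg X j c hc := (hS.alg X).le j hc

lemma dim_toP (S : Classes W) (X : 𝒱.Obj) : dimBy W (toP S) X = numOf S X := by
  unfold dimBy Pool.Agent.Y133.Half.dimOf numOf total Set.finrank
  rw [span_toP]

variable [Algebra W.K ℂ] {pq : HTypes W} (hW : IsHodgeTheory pq) {X : 𝒱.Obj}

/-- The polarisation. -/
noncomputable def psi (X : 𝒱.Obj) (γ : W.H (X.prod X)) : BilH (toT hW) X :=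
  (formK (W.tr (X.prod X)) (W.map (fst X X)) (W.map (snd X X)) γ :
    LinearMap.BilinForm W.K (W.H X))

lemma bilC_psi (γ : W.H (X.prod X)) (x y : HL W ℂ X) : bilC (psi hW X γ) x y =
    formC (W.tr (X.prod X)) (W.map (fst X X)) (W.map (snd X X)) γ x y :=
  form_eq _ _ _ γ x y

lemma pol_toT {γ : W.H (X.prod X)} (h : Polarises (pq X)
    (formC (W.tr (X.prod X)) (W.map (fst X X)) (W.map (snd X X)) γ)) :
    IsPolarisation (toT hW) X (psi hW X γ) where
  orth p q r s x y hx hy hne := (bilC_psi hW γ x y).trans (h.orth p q r s x y hx hy hne)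
  pos p q x hx h0 := by
    obtain ⟨t, ht, h1⟩ := h.pos _ (isConj_conjW hW X) p q x hx h0
    exact ⟨t, ht, (congrArg (Complex.I ^ (p - q) * ·)
      (bilC_psi hW γ x (conjW hW X x))).trans h1⟩

lemma given_toT {S : Classes W} {γ : W.H (X.prod X)}
    (h : γ ∈ (⨆ j, S (X.prod X) j : Submodule W.K (W.H (X.prod X)))) :
    CG.GivenBy (T := toT hW) (toP S) (psi hW X γ) := by
  refine ⟨γ, ?_, fun x y => rfl⟩
  have h1 := span_toP S (X.prod X)
  rw [← h1] at h
  exact h

end Pool.Agent.H847.PG
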