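import Pool.Graph.R_seed8.Y121.AHS.Ext
import Pool.Graph.R_seed8.Y163.Defs

/-!
# Hodge theories, systems of classes and their growth: definitions

`W` is a Weil cohomology theory with rational coefficients, for varieties over a field `k`; in the
intended use `k` is a subfield of the complex numbers and `W` is `X ↦ H(X(ℂ), ℚ)`. For an algebra
`A` over `K` and an extension `L` of `K`, `Ext K L A` is the `L`-algebra `L ⊗ A`.
-/

open CategoryTheory AlgebraicGeometry

universe u

namespace Pool.Agent.H847.PG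

open Pool.Agent.Y121.AHS (Ext extEm extMul extSub extMap extHom extForm Riemann)

/-! ### Orders of growth -/

/-- The exact order of growth `b ^ n n ^ (- D / 2)`. -/
def HasOrder (b : ℝ) (D : ℕ) (t : ℕ → ℕ) : Prop :=
  ∃ c C : ℝ, 0 < c ∧ ∀ n : ℕ, c * (b ^ n * ((n : ℝ) + 1) ^ (-(D : ℝ) / 2)) ≤ t n ∧
    (t n : ℝ) ≤ C * (b ^ n * ((n : ℝ) + 1) ^ (-(D : ℝ) / 2))

/-- The exact order of growth `n ^ D`. -/
def HasPoly (D : ℕ) (z : ℕ → ℕ) : Prop :=
  ∃ c C : ℝ, 0 < c ∧ ∀ n : ℕ, c * ((n : ℝ) + 1) ^ D ≤ z n ∧ (z n : ℝ) ≤ C * ((n : ℝ) + 1) ^ D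

/-- The quotients `t n / s n` differ from `N` by at most a constant multiple of `1 / (n + 1)`. -/
def NearIndex (N : ℕ) (t s : ℕ → ℕ) : Prop :=
  ∃ C : ℝ, ∀ n : ℕ, |(t n : ℝ) - N * s n| ≤ C / (n + 1) * s n

/-- The lower bound `t n ≥ c n ^ (1 / 2) s n` for all `n`. -/
def SqrtGap (t s : ℕ → ℕ) : Prop :=
  ∃ c : ℝ, 0 < c ∧ ∀ n : ℕ, c * Real.sqrt (n + 1) * s n ≤ t n

/-! ### Classes on one variety: algebra -/

section alg

variable {K A B : Type} [Field K] [Ring A] [Algebra K A] [Ring B] [Algebra K B]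

/-- The spaces `S j` consist of elements of degree `2 j`, and products of elements of `S i` and
`S j` lie in `S (i + j)`. -/
structure IsClassAlg (gr S : ℕ → Submodule K A) : Prop where
  le : ∀ j, S j ≤ gr (2 * j)
  mul : ∀ i j a b, a ∈ S i → b ∈ S j → a * b ∈ S (i + j)

/-- The element `c` lies in `S j`. -/
def Lies (S : ℕ → Submodule K A) (j : ℕ) (c : A) : Prop := c ∈ S j

/-- The homomorphism `f` maps `S j` into `S' j`. -/
def Carries (f : B →ₐ[K] A) (S : ℕ → Submodule K B) (S' : ℕ → Submodule K A) : Prop :=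
  ∀ j b, b ∈ S j → f b ∈ S' j

/-- The linear map `f` maps `S j` into `S' (j + n - m)`. -/
def Shifts (m n : ℕ) (f : A →ₗ[K] B) (S : ℕ → Submodule K A) (S' : ℕ → Submodule K B) : Prop :=
  ∀ j l a, l + m = j + n → a ∈ S j → f a ∈ S' l

/-- The dimension of the sum of the spaces `S j`. -/
noncomputable def total (S : ℕ → Submodule K A) : ℕ :=
  Module.finrank K (⨆ j, S j : Submodule K A)

/-- The dimension of the algebra of the endomorphisms `F` of `A` which commute with the operators
`x ↦ s(γ p(x))`, for all `γ` in the spaces `S j`. -/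
noncomputable def commDim (p : A →ₐ[K] B) (s : B →ₗ[K] A) (S : ℕ → Submodule K B) : ℕ :=
  Set.finrank K {F : Module.End K A | ∀ j, ∀ γ ∈ S j, ∀ x, F (s (γ * p x)) = s (γ * p (F x))}

variable [Algebra K ℂ]

/-- The map `c` is the complex conjugation of `ℂ ⊗ A`, if the elements of `K` are real. -/
structure IsConj (c : Ext K ℂ A → Ext K ℂ A) : Prop where
  add : ∀ x y, c (x + y) = c x + c y
  smul : ∀ (l : ℂ) x, c (l • x) = starRingEnd ℂ l • c x
  em : ∀ a, c (extEm K ℂ a) = extEm K ℂ a

/-- The spaces `pq p q` are a Hodge decomposition of `ℂ ⊗ A`: they are zero if `p < 0` or `q < 0`,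
the elements of degree `i` are the direct sum of the spaces `pq p q` with `p + q = i`, the types are
additive for products, and complex conjugation maps `pq p q` to `pq q p`. -/
structure IsHodgeAlg (gr : ℕ → Submodule K A) (pq : ℤ → ℤ → Submodule ℂ (Ext K ℂ A)) : Prop where
  nonneg : ∀ p q, p < 0 ∨ q < 0 → pq p q = ⊥
  span : ∀ i : ℕ, extSub K ℂ (gr i) = ⨆ r : {r : ℤ × ℤ // r.1 + r.2 = i}, pq r.1.1 r.1.2
  indep : iSupIndep fun r : ℤ × ℤ => pq r.1 r.2
  mul : ∀ p q r s a b, a ∈ pq p q → b ∈ pq r s → extMul K ℂ a b ∈ pq (p + r) (q + s)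
  sym : ∀ c, IsConj c → ∀ p q x, x ∈ pq p q → c x ∈ pq q p

/-- The map `f` maps elements of type `(p, q)` to elements of type `(p + d, q + d)`. -/
def ShiftsTypes (d : ℤ) (f : Ext K ℂ A → Ext K ℂ B) (pq : ℤ → ℤ → Submodule ℂ (Ext K ℂ A))
    (pq' : ℤ → ℤ → Submodule ℂ (Ext K ℂ B)) : Prop :=
  ∀ p q x, x ∈ pq p q → f x ∈ pq' (p + d) (q + d)

/-- The Hodge classes of degree `2 j`: the elements of degree `2 j` and type `(j, j)`. -/
def HodgeElt (gr : ℕ → Submodule K A) (pq : ℤ → ℤ → Submodule ℂ (Ext K ℂ A)) (j : ℕ) (x : A) :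
    Prop :=
  x ∈ gr (2 * j) ∧ extEm K ℂ x ∈ pq j j

/-- The element `l` satisfies the hard Lefschetz theorem and the Hodge-Riemann relations for the
Hodge classes. -/
structure IsPolar (tr : A →ₗ[K] K) (gr : ℕ → Submodule K A)
    (pq : ℤ → ℤ → Submodule ℂ (Ext K ℂ A)) (n : ℕ) (l : A) : Prop where
  lef : ∀ i ≤ n, Set.BijOn (fun x => l ^ (n - i) * x) (gr i) (gr (2 * n - i))
  rie : ∀ j x, 2 * j ≤ n → HodgeElt gr pq j x → Riemann tr l x n j

/-- The bilinear form `(x, y) ↦ tr(γ p(x) q(y))` with complex coefficients. -/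
noncomputable def formC (tr : B →ₗ[K] K) (p q : A →ₐ[K] B) (γ : B) (x y : Ext K ℂ A) : ℂ :=
  extForm K ℂ tr (extMul K ℂ (extEm K ℂ γ) (extMul K ℂ (extHom K ℂ p x) (extHom K ℂ q y)))

/-- The form `β` is a polarisation: `β x y = 0` if `x` is of type `(p, q)` and `y` is of type
`(r, s) ≠ (q, p)`, and `i ^ (p - q) β x (conj x) > 0` for all nonzero `x` of type `(p, q)`. -/
structure Polarises (pq : ℤ → ℤ → Submodule ℂ (Ext K ℂ A)) (β : Ext K ℂ A → Ext K ℂ A → ℂ) :
    Prop where
  orth : ∀ p q r s x y, x ∈ pq p q → y ∈ pq r s → (r, s) ≠ (q, p) → β x y = 0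
  pos : ∀ c, IsConj c → ∀ p q x, x ∈ pq p q → x ≠ 0 → ∃ t : ℝ, 0 < t ∧
    Complex.I ^ (p - q) * β x (c x) = t

/-- There is a polarisation `(x, y) ↦ tr(γ p(x) q(y))`, where `γ` is a sum of elements of the spaces
`S j`. -/
def HasPolarisation (pq : ℤ → ℤ → Submodule ℂ (Ext K ℂ A)) (tr : B →ₗ[K] K) (p q : A →ₐ[K] B)
    (S : ℕ → Submodule K B) : Prop :=
  ∃ γ ∈ (⨆ j, S j : Submodule K B), Polarises pq (formC tr p q γ)

/-- The `ℂ`-linear endomorphisms of `ℂ ⊗ A`. -/
def ExtEnd (K A : Type) [Field K] [Ring A] [Algebra K A] [Algebra K ℂ] : Type :=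
  Ext K ℂ A →ₗ[ℂ] Ext K ℂ A

/-- The value of the endomorphism `F` at `x`. -/
noncomputable def app (F : ExtEnd K A) (x : Ext K ℂ A) : Ext K ℂ A :=
  (show Ext K ℂ A →ₗ[ℂ] Ext K ℂ A from F) x

/-- The product of the images of `x` and `y`. -/
noncomputable def cross {C : Type} [Ring C] [Algebra K C] (p : A →ₐ[K] C) (q : B →ₐ[K] C)
    (x : Ext K ℂ A) (y : Ext K ℂ B) : Ext K ℂ C :=
  extMul K ℂ (extHom K ℂ p x) (extHom K ℂ q y)

/-- The endomorphism `F` of `ℂ ⊗ C` (where `C = A ⊗ B` by means of `p` and `q`) is the tensor product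
of `g` and `G`. -/
def IsTensor {C : Type} [Ring C] [Algebra K C] (p : A →ₐ[K] C) (q : B →ₐ[K] C) (g : ExtEnd K A)
    (G : ExtEnd K B) (F : ExtEnd K C) : Prop :=
  ∀ x y, app F (cross p q x y) = cross p q (app g x) (app G y)

/-- The endomorphism `F` fixes the elements of the spaces `S j`. -/
def Fixes (F : ExtEnd K A) (S : ℕ → Submodule K A) : Prop :=
  ∀ j, ∀ c ∈ S j, app F (extEm K ℂ c) = extEm K ℂ c

/-- The dimension of the span of the endomorphisms with the property `s`. -/
noncomputable def spanDim (s : ExtEnd K A → Prop) : ℕ :=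
  Set.finrank ℂ {F : Ext K ℂ A →ₗ[ℂ] Ext K ℂ A | s F}

end alg

/-! ### Varieties -/

open Pool.Agent.H914 Pool.Agent.H914.VarClass Pool.Agent.H914.VarClass.Obj
  Pool.Agent.H914.WeilCohomology
open Pool.Agent.Y163 (pw)

variable {k : Type u} [Field k] {𝒱 : VarClass k} {ops : CycleOps 𝒱}

variable (W : WeilCohomology.{u, 0} ops)

/-- Families of subspaces `S X j` of the cohomology of the varieties `X`. -/
abbrev Classes := ∀ X : 𝒱.Obj, ℕ → Submodule W.K (W.H X)

/-- Families of subspaces `pq X p q` of the cohomology of the varieties `X` with complex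
coefficients. -/
abbrev HTypes [Algebra W.K ℂ] := ∀ X : 𝒱.Obj, ℤ → ℤ → Submodule ℂ (Ext W.K ℂ (W.H X))

variable {W}

/-- A system of classes: `S X j` is a space of classes of degree `2 j` on `X`; it contains the
classes of the algebraic cycles of codimension `j`, and the spaces are stable under products,
pull-backs and push-forwards. -/
structure IsSystem (S : Classes W) : Prop where
  alg : ∀ X, IsClassAlg (W.gr X) (S X)
  cyc : ∀ X j z, X.IsCyc j z → Lies (S X) j (W.cl X z)
  map : ∀ X Y (f : X ⟶ Y), Carries (W.map f) (S Y) (S X)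
  push : ∀ X Y (f : X ⟶ Y), Shifts X.dim Y.dim (W.push f) (S X) (S Y)

/-- The number of the linearly independent classes on `X`. -/
noncomputable def numOf (S : Classes W) (X : 𝒱.Obj) : ℕ := total (S X)

/-- The dimension of the algebra of the endomorphisms of `H(X)` which commute with the
correspondences given by the classes of the system on `X × X`. -/
noncomputable def endNum (S : Classes W) (X : 𝒱.Obj) : ℕ :=
  commDim (W.map (fst X X)) (W.push (snd X X)) (S (X.prod X))

/-- The dimension of `H(X)`. -/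
noncomputable def bettiSum (W : WeilCohomology.{u, 0} ops) (X : 𝒱.Obj) : ℕ :=
  Module.finrank W.K (W.H X)

variable [Algebra W.K ℂ]

/-- A Hodge theory: the spaces `pq X p q` are a Hodge decomposition of the cohomology of `X`, pull-backs
preserve the types and push-forwards shift them, classes of algebraic cycles are Hodge classes, and
every `X` has a divisor with the hard Lefschetz theorem and the Hodge-Riemann relations for the Hodge
classes; the coefficients are the rational numbers. -/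
structure IsHodgeTheory (pq : HTypes W) : Prop where
  rat : ∀ r : W.K, ∃ q : ℚ, (q : W.K) = r
  alg : ∀ X, IsHodgeAlg (W.gr X) (pq X)
  map : ∀ X Y (f : X ⟶ Y), ShiftsTypes 0 (extHom W.K ℂ (W.map f)) (pq Y) (pq X)
  push : ∀ X Y (f : X ⟶ Y),
    ShiftsTypes (Y.dim - X.dim) (extMap W.K ℂ (W.push f)) (pq X) (pq Y)
  cyc : ∀ X j z, X.IsCyc j z → HodgeElt (W.gr X) (pq X) j (W.cl X z)
  polar : ∀ X, ∃ D, X.IsCyc 1 D ∧ IsPolar (W.tr X) (W.gr X) (pq X) X.dim (W.cl X D)

/-- The Hodge classes of degree `2 j` on `X`. -/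
def IsHodge (pq : HTypes W) (X : 𝒱.Obj) (j : ℕ) (c : W.H X) : Prop :=
  HodgeElt (W.gr X) (pq X) j c

/-- A system of Hodge classes such that the Hodge structure `H(X)` has a polarisation
`(x, y) ↦ ∫ γ · (x × y)`, where `γ` is a sum of classes of the system on `X × X`. -/
structure IsPolarisedBy (pq : HTypes W) (X : 𝒱.Obj) (S : Classes W) : Prop where
  sys : IsSystem S
  hodge : ∀ Y j c, Lies (S Y) j c → IsHodge pq Y j c
  pol : HasPolarisation (pq X) (W.tr (X.prod X)) (W.map (fst X X)) (W.map (snd X X))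
    (S (X.prod X))

/-- Families of endomorphisms of the cohomology of the powers of `X` with complex coefficients. -/
def PowEnd (W : WeilCohomology.{u, 0} ops) [Algebra W.K ℂ] (X : 𝒱.Obj) : Type :=
  ∀ n, ExtEnd W.K (W.H (pw X n))

/-- The elements `g` of the group attached to the system `S` and to `X`: `g 0` is an endomorphism of
the cohomology of `X`, `g n` is the endomorphism `g 0 ⊗ … ⊗ g 0` of the cohomology of `X ^ (n + 1)`,
and `g n` fixes the classes of the system on `X ^ (n + 1)`, for all `n`. -/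
structure IsInGroup (S : Classes W) (X : 𝒱.Obj) (g : PowEnd W X) : Prop where
  mul : ∀ n, IsTensor (W.map (fst X (pw X n))) (W.map (snd X (pw X n))) (g 0) (g n) (g (n + 1))
  fix : ∀ n, Fixes (g n) (S (pw X n))

/-- The dimension of the span of the endomorphisms `g ⊗ … ⊗ g` of the cohomology of `X ^ (n + 1)`,
for `g` in the group attached to `S` and `X`. It is the dimension of the space of the functions on
this group which are given by homogeneous polynomials of degree `n + 1` in the entries of the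
matrices. -/
noncomputable def groupDim (S : Classes W) (X : 𝒱.Obj) (n : ℕ) : ℕ :=
  spanDim fun F : ExtEnd W.K (W.H (pw X n)) => ∃ g : PowEnd W X, IsInGroup S X g ∧ g n = F

end Pool.Agent.H847.PG
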