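import Pool.Agent.H847.PG.GDefs
import Pool.Agent.H847.PG.Conv3

/-!
# Galois actions and Tate classes: conversion
-/

set_option linter.unusedSectionVars false
set_option linter.unusedVariables false

open CategoryTheory AlgebraicGeometry CategoryTheory.Limits TensorProduct Matrix Filter

universe u v w

namespace Pool.Agent.H847.PG

open Pool.Agent.H914 Pool.Agent.H447 Pool.Agent.W534 Pool.Agent.Y163 VarClass Obj WeilCohomology
  Module
open Pool.Agent.Y121 Pool.Agent.Y121.AHS Pool.Agent.R940 Pool.Agent.R914.UN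
open Pool.Agent.Y133.Half (Sys PH Ev Adj ClassPred dimBy)
open Pool.Agent.H694

variable {k : Type u} [Field k] {𝒱 : VarClass k} {ops : CycleOps 𝒱}
  {W : WeilCohomology.{u, 0} ops} {L : Type} [Field L] [Algebra W.K L] {X Y : 𝒱.Obj}

/-- The automorphism. -/
noncomputable def autE {x : L} {s : Ext W.K L (W.H X) → Ext W.K L (W.H X)}
    (h : IsAut (W.gr X) X.dim x s) : (baseW W L).H X ≃ₐ[(baseW W L).K] (baseW W L).H X :=
  AlgEquiv.ofBijective
    (AlgHom.ofLinearMap
      { toFun := s
        map_add' := h.add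
        map_smul' := h.smul }
      (by
        obtain ⟨b, hb⟩ := h.bij.2 ((1 : (baseW W L).H X) : Ext W.K L (W.H X))
        have h1 : s ((1 : (baseW W L).H X) : Ext W.K L (W.H X)) = (1 : (baseW W L).H X) := by
          have h2 := h.mul ((1 : (baseW W L).H X) : Ext W.K L (W.H X)) b
          have h3 : extMul W.K L ((1 : (baseW W L).H X) : Ext W.K L (W.H X)) b = b :=
            one_mul (show (baseW W L).H X from b)
          rw [h3, hb] at h2
          have h4 : extMul W.K L (s ((1 : (baseW W L).H X) : Ext W.K L (W.H X)))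
              ((1 : (baseW W L).H X) : Ext W.K L (W.H X)) =
                s ((1 : (baseW W L).H X) : Ext W.K L (W.H X)) :=
            mul_one (show (baseW W L).H X from s _)
          rw [h4] at h2
          exact h2.symm
        exact h1)
      h.mul)
    h.bij

lemma aut_tr {x : L} {s : Ext W.K L (W.H X) → Ext W.K L (W.H X)}
    (h : IsAut (W.gr X) X.dim x s) (a : (baseW W L).H X) :
    (baseW W L).tr X (autE h a) = (show (baseW W L).K from x) ^ X.dim * (baseW W L).tr X a := by
  have htop : a ∈ ⨆ i, (baseW W L).gr X i := by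
    rw [((baseW W L).isInternal X).submodule_iSup_eq_top]
    exact Submodule.mem_top
  refine Submodule.iSup_induction ((baseW W L).gr X)
    (motive := fun a => (baseW W L).tr X (autE h a) =
      (show (baseW W L).K from x) ^ X.dim * (baseW W L).tr X a) htop ?_ ?_ ?_
  · intro i a ha
    by_cases hi : i = 2 * X.dim
    · subst hi
      have h1 : autE h a = (show (baseW W L).K from x) ^ X.dim • a := h.top a ha
      rw [h1, map_smul, smul_eq_mul]
    · have h1 : (baseW W L).tr X a = 0 := (baseW W L).tr_eq_zero ha hi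
      have h2 : (baseW W L).tr X (autE h a) = 0 := (baseW W L).tr_eq_zero (h.deg i a ha) hi
      rw [h1, h2, mul_zero]
  · rw [map_zero, map_zero, mul_zero]
  · intro a b ha hb
    rw [map_add, map_add, map_add, mul_add, ha, hb]

variable (G : GaloisAction.{u, w} W L)

/-- The Galois system. -/
noncomputable def toGS : TT.GaloisSystem.{u, 0, w} (baseW W L) where
  Γ := G.Γ
  χ := (MonoidHom.mk' (fun g => Units.mk0 (G.χ g) (G.ne g)) fun g h => Units.ext (G.char g h) :
    G.Γ →* Lˣ)
  dom := G.dom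
  ρ X := MonoidHom.mk' (fun g => autE (G.aut X g g.2)) fun g h =>
    AlgEquiv.ext fun c => G.act_mul X g g.2 h h.2 c
  acts X :=
    { finite := G.finite X
      gr_mem := fun g i a ha => (G.aut X g g.2).deg i a ha
      tr_act := fun g a => aut_tr (G.aut X g g.2) a }
  map_act {X Y} f := by
    obtain ⟨Δ, hΔ, h⟩ := G.map X Y f
    refine ⟨Δ, hΔ, fun g g' hgg hg b => ?_⟩
    have h1 := h g hg ⟨g.2, hgg ▸ g'.2⟩ b
    have h2 : G.act X g ((baseW W L).map f b) = (baseW W L).map f (G.act Y g' b) := by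
      have e1 := map_eq W L f b
      have e2 := map_eq W L f (G.act Y g' b)
      rw [← hgg] at e2 ⊢
      exact ((congrArg (G.act X g) e1).trans h1).trans e2.symm
    exact h2
  cl_act {X j z} hz := by
    obtain ⟨Δ, hΔ, h⟩ := G.cyc X j z hz
    exact ⟨Δ, hΔ, fun g hg => h g.1 hg g.2⟩

lemma isTate_iff {j : ℕ} {c : Ext W.K L (W.H X)} :
    IsTate G X j c ↔ TT.IsTate (toGS G) X j c := by
  unfold IsTate TT.IsTate
  refine and_congr Iff.rfl ?_
  constructor
  · rintro ⟨Δ, hΔ, h⟩
    exact ⟨Δ, hΔ, fun g hg => h g.1 hg g.2⟩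
  · rintro ⟨Δ, hΔ, h⟩
    exact ⟨Δ, hΔ, fun g hg hd => h ⟨g, hd⟩ hg⟩

lemma tateNum_eq (X : 𝒱.Obj) :
    tateNum G X = dimBy (baseW W L) (TT.IsTate (toGS G)) X := by
  have : {c : Ext W.K L (W.H X) | ∃ j, IsTate G X j c} = {c | ∃ j, TT.IsTate (toGS G) X j c} := by
    ext c
    exact exists_congr fun j => isTate_iff G
  unfold tateNum extDim
  rw [this]
  rfl

lemma isComb_iff (S : Classes W) (X : 𝒱.Obj) (j : ℕ) (c : (baseW W L).H X) :
    c ∈ Submodule.span (baseW W L).K {x : (baseW W L).H X | ∃ a, toP S X j a ∧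
      AH.em W L a = x} ↔ IsComb (S X j) (show Ext W.K L (W.H X) from c) := by
  have h : (S X j).baseChange L = Submodule.span L {x : L ⊗[W.K] W.H X | ∃ a, a ∈ S X j ∧
      (1 : L) ⊗ₜ[W.K] a = x} := Submodule.baseChange_eq_span L (S X j)
  have h2 : IsComb (S X j) (show Ext W.K L (W.H X) from c) ↔
    (show L ⊗[W.K] W.H X from c) ∈ (S X j).baseChange L := Iff.rfl
  rw [h2, h]
  rfl

/-- The growth law, and the gap for the Tate classes. -/
theorem tate_law [Algebra W.K ℂ] {pq : HTypes W} (hW : IsHodgeTheory pq) (X : 𝒱.Obj)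
    [hn : Nontrivial (W.H X)] (S : Classes W) (hS : IsPolarisedBy pq X S) :
    ∃ a : ℕ, HasOrder (bettiSum W X) a (fun n => numOf S (pw X n)) ∧ HasPoly a (groupDim S X) ∧
      ∀ (L : Type) [Field L] [Algebra W.K L] (_ : L →ₐ[W.K] ℂ)
        (G : GaloisAction.{u, w} W L),
        (∀ Y j c, c ∈ S Y j → IsTate G Y j (extEm W.K L c)) →
        (∃ N : ℕ, 1 ≤ N ∧ (N = 1 ↔ ∀ n j c, IsTate G (pw X n) j c → IsComb (S (pw X n) j) c) ∧
          NearIndex N (fun n => tateNum G (pw X n)) (fun n => numOf S (pw X n))) ∨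
        SqrtGap (fun n => tateNum G (pw X n)) (fun n => numOf S (pw X n)) := by
  obtain ⟨γ, hγ, hpol⟩ := hS.pol
  have hn' : Nontrivial ((toT hW).W.H X) := hn
  obtain ⟨a, h1, h2, h3⟩ := CG.ext_law (toT hW) (nonneg_toT hW) X (sym_toT hW X) (toP S)
    (isClass_toP hS.sys) hS.hodge (pol_toT hW hpol) (given_toT hW hγ)
  have e1 : (fun n => dimBy W (toP S) (pw X n)) = fun n => numOf S (pw X n) :=
    funext fun n => dim_toP S (pw X n)
  have e2 : groupDim S X = CG.polyDim W (toP S) X := funext fun n => groupDim_eq S X n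
  refine ⟨a, ?_, ?_, fun L _ iL σ G hG => ?_⟩
  · rw [← e1]; exact h1
  · rw [e2]; exact h2
  letI : Algebra (toT hW).W.K L := iL
  have h4 := h3 L σ (TT.tatePred (toGS G)) (fun Y j c hc => (isTate_iff G).1 (hG Y j c hc))
  have e3 : (fun n => dimBy (baseW W L) (TT.tatePred (toGS G)).P (pw X n)) =
      fun n => tateNum G (pw X n) := funext fun n => (tateNum_eq G (pw X n)).symm
  rw [← e1, ← e3]
  refine h4.imp (fun ⟨N, h5, h6, h7⟩ => ⟨N, h5, h6.trans ?_, h7⟩) id
  refine forall_congr' fun n => forall_congr' fun j => forall_congr' fun c => ?_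
  exact imp_congr (isTate_iff G).symm (isComb_iff S (pw X n) j c)

end Pool.Agent.H847.PG
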