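import Pool.Agent.H847.PG.Defs

/-!
# Galois actions and Tate classes: definitions

Let `L` be a field containing the coefficients `W.K` (in the intended use, `L = ℚ_ℓ`). By the
comparison isomorphism the cohomology `X ↦ H(X(ℂ), ℚ)` with coefficients extended to `L` is (in the
intended use) the `ℓ`-adic étale cohomology.
-/

open CategoryTheory AlgebraicGeometry

universe u w

namespace Pool.Agent.H847.PG

open Pool.Agent.Y121.AHS (Ext extEm extMul extSub extMap extHom)

/-- A property of the elements of the subgroup `dom` holds for the elements of a subgroup of finite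
index. -/
def UpToFin {Γ : Type w} [Group Γ] (dom : Subgroup Γ) (p : Γ → Prop) : Prop :=
  ∃ Δ : Subgroup Γ, Δ.FiniteIndex ∧ ∀ g ∈ Δ, g ∈ dom → p g

section alg

variable {K A B L : Type} [Field K] [Ring A] [Algebra K A] [Ring B] [Algebra K B] [Field L]
  [Algebra K L]

/-- The map `s` multiplies `c` by `x ^ j`. -/
def MulBy (x : L) (j : ℕ) (c : Ext K L A) (s : Ext K L A → Ext K L A) : Prop := s c = x ^ j • c

/-- The map `s` is an automorphism of the algebra `L ⊗ A` which respects the degrees and multiplies
the elements of degree `2 n` by `x ^ n`. -/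
structure IsAut (gr : ℕ → Submodule K A) (n : ℕ) (x : L) (s : Ext K L A → Ext K L A) : Prop where
  bij : Function.Bijective s
  add : ∀ b c, s (b + c) = s b + s c
  smul : ∀ (l : L) c, s (l • c) = l • s c
  mul : ∀ b c, s (extMul K L b c) = extMul K L (s b) (s c)
  deg : ∀ i c, c ∈ extSub K L (gr i) → s c ∈ extSub K L (gr i)
  top : ∀ c, c ∈ extSub K L (gr (2 * n)) → MulBy x n c s

/-- The homomorphism `f` commutes with `s` and `s'`. -/
def Comm (f : B →ₐ[K] A) (s : Ext K L A → Ext K L A) (s' : Ext K L B → Ext K L B) : Prop :=
  ∀ b, s (extHom K L f b) = extHom K L f (s' b)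

/-- The map `s` multiplies the element `a` of `A` by `x ^ j`. -/
def MulElt (x : L) (j : ℕ) (a : A) (s : Ext K L A → Ext K L A) : Prop := MulBy x j (extEm K L a) s

/-- The dimension of the span of the elements of `S`. -/
noncomputable def extDim (S : Ext K L A → Prop) : ℕ := Set.finrank L {c | S c}

/-- The element `c` of `L ⊗ A` is a linear combination of elements of `V`. -/
def IsComb (V : Submodule K A) (c : Ext K L A) : Prop := c ∈ extSub K L V

/-- The element `c` of `L ⊗ A` is of degree `i`. -/
def OfDeg (gr : ℕ → Submodule K A) (i : ℕ) (c : Ext K L A) : Prop := IsComb (gr i) c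

end alg

open Pool.Agent.H914 Pool.Agent.H914.VarClass Pool.Agent.H914.VarClass.Obj
  Pool.Agent.H914.WeilCohomology

variable {k : Type u} [Field k] {𝒱 : VarClass k} {ops : CycleOps 𝒱}

/-- The action of the Galois group `Γ` of a field `k₁` finitely generated over `ℚ` with algebraic
closure `k` on the cohomology, with coefficients in `L`, of the varieties over `k`. Each variety
`X` has a model over a finite extension of `k₁`, so a subgroup `dom X` of finite index of `Γ` acts
on the cohomology of `X`, respecting the products and the degrees; the action on the cohomology of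
degree `2 dim X` is given by the power `dim X` of a character `χ` (the inverse of the cyclotomic
character). Morphisms and cycles are defined over finite extensions: pull-backs commute with the
action of a subgroup of finite index, and a subgroup of finite index multiplies the class of a
cycle of codimension `j` by `χ ^ j`. -/
structure GaloisAction (W : WeilCohomology.{u, 0} ops) (L : Type) [Field L] [Algebra W.K L] where
  /-- the group -/
  Γ : Type w
  [group : Group Γ]
  /-- the character -/
  χ : Γ → L
  ne : ∀ g, χ g ≠ 0
  char : ∀ g h, χ (g * h) = χ g * χ h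
  /-- the subgroups -/
  dom : 𝒱.Obj → Subgroup Γ
  /-- the actions (used for the elements of `dom X` only) -/
  act : ∀ X, Γ → Ext W.K L (W.H X) → Ext W.K L (W.H X)
  finite : ∀ X, (dom X).FiniteIndex
  act_mul : ∀ X, ∀ g ∈ dom X, ∀ h ∈ dom X, ∀ c, act X (g * h) c = act X g (act X h c)
  aut : ∀ X, ∀ g ∈ dom X, IsAut (W.gr X) X.dim (χ g) (act X g)
  map : ∀ X Y (f : X ⟶ Y), UpToFin (dom X ⊓ dom Y) fun g => Comm (W.map f) (act X g) (act Y g)
  cyc : ∀ X j z, X.IsCyc j z → UpToFin (dom X) fun g => MulElt (χ g) j (W.cl X z) (act X g)

attribute [instance] GaloisAction.group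

variable {W : WeilCohomology.{u, 0} ops} {L : Type} [Field L] [Algebra W.K L]

/-- The Tate classes of codimension `j` on `X`: the classes `c` of degree `2 j` such that `g c` is
`χ(g) ^ j c` for all `g` in a subgroup of finite index. -/
def IsTate (G : GaloisAction.{u, w} W L) (X : 𝒱.Obj) (j : ℕ) (c : Ext W.K L (W.H X)) : Prop :=
  OfDeg (W.gr X) (2 * j) c ∧ UpToFin (G.dom X) fun g => MulBy (G.χ g) j c (G.act X g)

/-- The number of linearly independent Tate classes (of all codimensions) on `X`. -/
noncomputable def tateNum (G : GaloisAction.{u, w} W L) (X : 𝒱.Obj) : ℕ :=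
  extDim fun c => ∃ j, IsTate G X j c

end Pool.Agent.H847.PG
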