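import Pool.Graph.R_seed8.Y121.AHS.Defs
import Pool.Graph.R_seed8.Y163.Defs

/-!
# Growth of the Hodge classes and of the absolutely Hodge classes: definitions

`T` is a Hodge theory and `D` the family of its conjugates (`Pool.Agent.Y121.AHS`). For an algebra `A`
over `K` and an extension `L` of `K`, `Ext K L A` is `L ⊗ A`.
-/

open CategoryTheory AlgebraicGeometry

universe u

namespace Pool.Agent.H847.PN

open Pool.Agent.Y121.AHS (Ext extEm extSm extMul extHom extForm)

/-- The numbers `t n` have the exact order of growth `f n`. -/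
def HasOrder (f : ℕ → ℝ) (t : ℕ → ℕ) : Prop :=
  ∃ c C : ℝ, 0 < c ∧ ∀ n, c * f n ≤ t n ∧ t n ≤ C * f n

/-- The quotients `t n / s n` differ from `N` by at most a constant multiple of `1 / (n + 1)`. -/
def NearIndex (N : ℕ) (t s : ℕ → ℕ) : Prop :=
  ∃ C : ℝ, ∀ n, |(t n : ℝ) - N * s n| ≤ C / (n + 1) * s n

section alg

variable {K A B : Type} [Field K] [Ring A] [Algebra K A] [Ring B] [Algebra K B] [Algebra K ℂ]

/-- The sum of two elements. -/
noncomputable def extAdd (x y : Ext K ℂ A) : Ext K ℂ A := x + y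

/-- The map `c` is the complex conjugation of `ℂ ⊗ A`, if the elements of `K` are real. -/
def IsConj (c : Ext K ℂ A → Ext K ℂ A) : Prop :=
  (∀ x y, c (extAdd x y) = extAdd (c x) (c y)) ∧
    ∀ l a, c (extSm K ℂ l (extEm K ℂ a)) = extSm K ℂ (star l) (extEm K ℂ a)

/-- The map `f` is `ℂ`-linear. -/
def IsLin (f : Ext K ℂ A → Ext K ℂ A) : Prop :=
  (∀ x y, f (extAdd x y) = extAdd (f x) (f y)) ∧ ∀ l x, f (extSm K ℂ l x) = extSm K ℂ l (f x)

/-- The elements of type `(p, q)` are those with `V p q`; the Hodge structure is polarised by the form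
`β`: for `x` of type `(p, q)`, `β x y = 0` if `y` is of type `(r, s) ≠ (q, p)`, the complex conjugate of
`x` is of type `(q, p)`, and `i ^ (p - q) β x (conj x) > 0` if `x ≠ 0`. -/
def Polarises (V : ℤ → ℤ → Ext K ℂ A → Prop) (β : Ext K ℂ A → Ext K ℂ A → ℂ) : Prop :=
  ∀ p q x, V p q x → (∀ r s y, V r s y → (r, s) ≠ (q, p) → β x y = 0) ∧
    ∀ c, IsConj c → V q p (c x) ∧ (x ≠ 0 → ∃ t : ℝ, 0 < t ∧ Complex.I ^ (p - q) * β x (c x) = t)

/-- The Hodge structure is polarised by a form `(x, y) ↦ tr(γ p(x) q(y))`, where `γ` is a linear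
combination of elements of `S`. -/
def HasPol (V : ℤ → ℤ → Ext K ℂ A → Prop) (tr : B →ₗ[K] K) (p q : A →ₐ[K] B) (S : Set B) : Prop :=
  ∃ γ ∈ Submodule.span K S, Polarises V fun x y =>
    extForm K ℂ tr (extMul K ℂ (extEm K ℂ γ) (extMul K ℂ (extHom K ℂ p x) (extHom K ℂ q y)))

variable {H : ℕ → Type} [∀ n, Ring (H n)] [∀ n, Algebra K (H n)]

/-- The elements `g` of the group: `g n` is a `ℂ`-linear endomorphism of `ℂ ⊗ H n` which fixes the
elements of `S n`, and `g (n + 1)` is the tensor product of `g 0` and `g n`, where `ℂ ⊗ H (n + 1)` is the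
tensor product of `ℂ ⊗ H 0` and `ℂ ⊗ H n` by means of `m n`. -/
def InGroup (m : ∀ n, Ext K ℂ (H 0) → Ext K ℂ (H n) → Ext K ℂ (H (n + 1))) (S : ∀ n, H n → Prop)
    (g : ∀ n, Ext K ℂ (H n) → Ext K ℂ (H n)) : Prop :=
  ∀ n, IsLin (g n) ∧ (∀ c, S n c → g n (extEm K ℂ c) = extEm K ℂ c) ∧
    ∀ x y, g (n + 1) (m n x y) = m n (g 0 x) (g n y)

/-- The dimension of the span of the endomorphisms `g n` of `ℂ ⊗ H n`, for the elements `g` of the
group. -/
noncomputable def spanDim (m : ∀ n, Ext K ℂ (H 0) → Ext K ℂ (H n) → Ext K ℂ (H (n + 1)))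
    (S : ∀ n, H n → Prop) (n : ℕ) : ℕ :=
  Set.finrank ℂ {F | ∃ g, InGroup m S g ∧ g n = F}

end alg

open Pool.Agent.H914 Pool.Agent.H914.VarClass Pool.Agent.H914.VarClass.Obj
  Pool.Agent.H914.WeilCohomology Pool.Agent.Y121.AHS
open Pool.Agent.Y163 (pw)

variable {k : Type u} [Field k] {𝒱 : VarClass k} {ops : CycleOps 𝒱} {T : HodgeTheory ops}

/-- The number of the linearly independent classes with the property `P` on `Y`. -/
noncomputable def num (P : ∀ Y, ℕ → T.W.H Y → Prop) (Y : 𝒱.Obj) : ℕ :=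
  Set.finrank T.W.K {c | ∃ j, P Y j c}

/-- The product of the pull-backs of `x` and `y` to `X × Y`. -/
noncomputable def cross {X Y : 𝒱.Obj} (x : HL T.W ℂ X) (y : HL T.W ℂ Y) : HL T.W ℂ (X.prod Y) :=
  mulL (mapL (fst X Y) x) (mapL (snd X Y) y)

/-- The dimension of the span of the endomorphisms `g ⊗ … ⊗ g` of the cohomology of `X ^ (n + 1)` with
complex coefficients, where `g` is an endomorphism of the cohomology of `X` such that, for all `m`,
`g ⊗ … ⊗ g` fixes the classes with the property `P` on `X ^ (m + 1)`. It is the dimension of the space of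
the functions on the group of these `g` which are given by homogeneous polynomials of degree
`n + 1`. -/
noncomputable def groupDim (P : ∀ Y, ℕ → T.W.H Y → Prop) (X : 𝒱.Obj) : ℕ → ℕ :=
  spanDim (H := fun n => T.W.H (pw X n)) (fun _ => cross) fun n c => ∃ j, P (pw X n) j c

end Pool.Agent.H847.PN
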