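import Pool.Agent.H847.PG.NDefs
import Pool.Agent.H847.PG.BLaw

/-!
# Growth of the Hodge classes and of the absolutely Hodge classes: conversion
-/

set_option linter.unusedSectionVars false
set_option linter.unusedVariables false

open CategoryTheory AlgebraicGeometry CategoryTheory.Limits TensorProduct Matrix Filter

universe u v w

namespace Pool.Agent.H847.PN

open Pool.Agent.H914 Pool.Agent.H447 Pool.Agent.W534 Pool.Agent.Y163 VarClass Obj WeilCohomology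
  Module
open Pool.Agent.Y121 Pool.Agent.Y121.AHS Pool.Agent.R914.UN Pool.Agent.R920.MT

variable {k : Type u} [Field k] {𝒱 : VarClass k} {ops : CycleOps 𝒱}

section

variable (T : HodgeTheory ops) {X : 𝒱.Obj}

/-- The complex conjugation. -/
noncomputable def conjT (X : 𝒱.Obj) (x : Ext T.W.K ℂ (T.W.H X)) : Ext T.W.K ℂ (T.W.H X) :=
  conjH T (X := X) x

lemma isConj_conjT (X : 𝒱.Obj) : IsConj (conjT T X) := by
  refine ⟨fun x y => map_add (Algebra.TensorProduct.map (conjAlg T) (AlgHom.id T.W.K (T.W.H X))) x y,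
    fun l a => ?_⟩
  have h1 := PG.map_smul_conj (conjAlg T) l ((1 : ℂ) ⊗ₜ[T.W.K] a)
  have h2 := PG.map_one_conj (conjAlg T) a
  rw [h2] at h1
  exact h1

/-- The polarisation. -/
noncomputable def psiT (X : 𝒱.Obj) (γ : T.W.H (X.prod X)) : BilH T X :=
  (PG.formK (T.W.tr (X.prod X)) (T.W.map (fst X X)) (T.W.map (snd X X)) γ :
    LinearMap.BilinForm T.W.K (T.W.H X))

lemma bilC_psiT (γ : T.W.H (X.prod X)) (x y : HL T.W ℂ X) : bilC (psiT T X γ) x y =
    PG.formC (T.W.tr (X.prod X)) (T.W.map (fst X X)) (T.W.map (snd X X)) γ x y :=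
  PG.form_eq _ _ _ γ x y

lemma pol_T {γ : T.W.H (X.prod X)} (h : Polarises (fun p q x => IsType (X := X) T.pq p q x)
    (PG.formC (T.W.tr (X.prod X)) (T.W.map (fst X X)) (T.W.map (snd X X)) γ)) :
    IsPolarisation T X (psiT T X γ) where
  orth p q r s x y hx hy hne := (bilC_psiT T γ x y).trans ((h p q x hx).1 r s y hy hne)
  pos p q x hx h0 := by
    obtain ⟨t, ht, h1⟩ := ((h p q x hx).2 _ (isConj_conjT T X)).2 h0
    exact ⟨t, ht, (congrArg (Complex.I ^ (p - q) * ·)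
      (bilC_psiT T γ x (conjT T X x))).trans h1⟩

lemma sym_T {β : Ext T.W.K ℂ (T.W.H X) → Ext T.W.K ℂ (T.W.H X) → ℂ}
    (h : Polarises (fun p q x => IsType (X := X) T.pq p q x) β) : HodgeSymmetric T X :=
  fun p q x hx => ((h p q x hx).2 _ (isConj_conjT T X)).1

lemma given_T {P : Property T.W} {γ : T.W.H (X.prod X)}
    (h : γ ∈ Submodule.span T.W.K {c | ∃ j, P (X.prod X) j c}) :
    CG.GivenBy (T := T) P (psiT T X γ) :=
  ⟨γ, h, fun x y => rfl⟩

end

lemma groupDim_eq {T : HodgeTheory ops} {P : Property T.W} (hP : CG.IsClassSystem P) (X : 𝒱.Obj)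
    (n : ℕ) : groupDim (T := T) P X n = PG.groupDim (PG.spanSys P) X n := by
  have hmem : ∀ m j c, c ∈ PG.spanSys P (pw X m) j ↔ P (pw X m) j c := fun m j c => by
    have h : PG.toP (PG.spanSys P) (pw X m) j c = P (pw X m) j c := by rw [PG.toP_spanSys hP]
    exact Iff.of_eq h
  have key : {F : Ext T.W.K ℂ (T.W.H (pw X n)) → Ext T.W.K ℂ (T.W.H (pw X n)) |
      ∃ g, InGroup (H := fun n => T.W.H (pw X n)) (fun _ => cross)
        (fun m c => ∃ j, P (pw X m) j c) g ∧ g n = F} =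
      (LinearMap.ltoFun ℂ (Ext T.W.K ℂ (T.W.H (pw X n))) (Ext T.W.K ℂ (T.W.H (pw X n))) ℂ) ''
        {F : Ext T.W.K ℂ (T.W.H (pw X n)) →ₗ[ℂ] Ext T.W.K ℂ (T.W.H (pw X n)) |
          ∃ g : PG.PowEnd T.W X, PG.IsInGroup (PG.spanSys P) X g ∧ g n = F} := by
    ext F
    constructor
    · rintro ⟨g, hg, rfl⟩
      let G : PG.PowEnd T.W X := fun m => (⟨⟨g m, (hg m).1.1⟩, (hg m).1.2⟩ :
        Ext T.W.K ℂ (T.W.H (pw X m)) →ₗ[ℂ] Ext T.W.K ℂ (T.W.H (pw X m)))
      refine ⟨G n, ⟨G, ⟨fun m => fun x y => (hg m).2.2 x y, fun m j c hc =>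
        (hg m).2.1 c ⟨j, (hmem m j c).1 hc⟩⟩, rfl⟩, rfl⟩
    · rintro ⟨F, ⟨g, hg, rfl⟩, rfl⟩
      refine ⟨fun m => PG.app (g m), fun m => ⟨⟨?_, ?_⟩, ?_, ?_⟩, rfl⟩
      · exact fun x y => (show Ext T.W.K ℂ (T.W.H (pw X m)) →ₗ[ℂ]
          Ext T.W.K ℂ (T.W.H (pw X m)) from g m).map_add x y
      · exact fun l x => (show Ext T.W.K ℂ (T.W.H (pw X m)) →ₗ[ℂ]
          Ext T.W.K ℂ (T.W.H (pw X m)) from g m).map_smul l x
      · rintro c ⟨j, hj⟩
        exact hg.fix m j c ((hmem m j c).2 hj)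
      · exact fun x y => hg.mul m x y
  have hinj : Function.Injective (LinearMap.ltoFun ℂ (Ext T.W.K ℂ (T.W.H (pw X n)))
      (Ext T.W.K ℂ (T.W.H (pw X n))) ℂ) := fun f g h => LinearMap.ext fun x => congrFun h x
  have h1 : groupDim (T := T) P X n = Module.finrank ℂ (Submodule.span ℂ
      {F : Ext T.W.K ℂ (T.W.H (pw X n)) → Ext T.W.K ℂ (T.W.H (pw X n)) |
      ∃ g, InGroup (H := fun n => T.W.H (pw X n)) (fun _ => cross)
        (fun m c => ∃ j, P (pw X m) j c) g ∧ g n = F}) := rfl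
  rw [h1, key, ← Submodule.map_span]
  exact (Submodule.equivMapOfInjective _ hinj _).finrank_eq.symm

/-- The growth law for the Hodge classes and for the absolutely Hodge classes. -/
theorem abs_growth (T : HodgeTheory ops)
    (hT : ∀ (Y : 𝒱.Obj) p q (x y : HL T.W ℂ Y), p < 0 ∨ q < 0 → IsType T.pq p q x →
      IsType T.pq p q y → x = y)
    (X : 𝒱.Obj) [Nontrivial (T.W.H X)] (D : Conjugates T)
    (hD : HasPol (fun p q x => IsType (X := X) T.pq p q x) (T.W.tr (X.prod X)) (T.W.map (fst X X))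
      (T.W.map (snd X X)) {c | ∃ j, IsAbsHodge D (X.prod X) j c}) :
    ∃ d a : ℕ, d ≤ a ∧
      HasOrder (fun n => (Module.finrank T.W.K (T.W.H X) : ℝ) ^ n * ((n : ℝ) + 1) ^ (-(d : ℝ) / 2))
        (fun n => num (IsHodge T) (pw X n)) ∧
      HasOrder (fun n => ((n : ℝ) + 1) ^ d) (groupDim (IsHodge T) X) ∧
      HasOrder (fun n => (Module.finrank T.W.K (T.W.H X) : ℝ) ^ n * ((n : ℝ) + 1) ^ (-(a : ℝ) / 2))
        (fun n => num (IsAbsHodge D) (pw X n)) ∧
      HasOrder (fun n => ((n : ℝ) + 1) ^ a) (groupDim (IsAbsHodge D) X) ∧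
      HasOrder (fun n => ((n : ℝ) + 1) ^ (((a : ℝ) - d) / 2) * (num (IsAbsHodge D) (pw X n) : ℕ))
        (fun n => num (IsHodge T) (pw X n)) ∧
      (a = d ↔ ∃ N, 1 ≤ N ∧
        (N = 1 ↔ ∀ n j c, IsHodge T (pw X n) j c → IsAbsHodge D (pw X n) j c) ∧
        NearIndex N (fun n => num (IsHodge T) (pw X n))
          (fun n => num (IsAbsHodge D) (pw X n))) := by
  obtain ⟨γ, hγ, hp⟩ := hD
  have hp' : Polarises (fun p q x => IsType (X := X) T.pq p q x)
    (PG.formC (T.W.tr (X.prod X)) (T.W.map (fst X X)) (T.W.map (snd X X)) γ) := hp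
  have hpos : Pool.Agent.R940.NonnegTypes T := fun Y p q hpq => by
    refine (Submodule.eq_bot_iff _).2 fun x hx => ?_
    exact hT Y p q x 0 hpq hx (Submodule.zero_mem _)
  obtain ⟨d, a, h1, h2, h3, h4, h5, h6, h7⟩ := PG.abs_pair T hpos X (sym_T T hp) D
    ⟨_, pol_T T hp', given_T (P := IsAbsHodge D) T hγ⟩
  have e1 : groupDim (T := T) (IsHodge T) X = PG.groupDim (PG.spanSys (IsHodge T)) X :=
    funext fun n => groupDim_eq (P := IsHodge T) (CG.isClass_hodge T) X n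
  have e2 : groupDim (T := T) (IsAbsHodge D) X = PG.groupDim (PG.spanSys (IsAbsHodge D)) X :=
    funext fun n => groupDim_eq (P := IsAbsHodge D) (CG.isClass_abs D) X n
  refine ⟨d, a, h1, h2, ?_, h4, ?_, ?_, h7⟩
  · rw [e1]; exact h3
  · rw [e2]; exact h5
  · obtain ⟨c, C, hc, hh⟩ := h6
    refine ⟨c, C, hc, fun n => ?_⟩
    obtain ⟨h8, h9⟩ := hh n
    refine ⟨?_, ?_⟩
    · rw [← mul_assoc]; exact h8
    · rw [← mul_assoc]; exact h9

end Pool.Agent.H847.PN
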