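import Pool.Agent.H847.PG.RPer
import Pool.Agent.H847.PG.Conv2
import Pool.Agent.H847.CG.Cm3
import Pool.Graph.R_seed8.Y133.Half.Per

/-!
# De Rham theories: conversion
-/

set_option linter.unusedSectionVars false
set_option linter.unusedVariables false

open CategoryTheory AlgebraicGeometry CategoryTheory.Limits TensorProduct

universe u v w

namespace Pool.Agent.H847.PG

open Pool.Agent.H914 Pool.Agent.H447 Pool.Agent.W534 Pool.Agent.Y163 VarClass Obj WeilCohomology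
  Module
open Pool.Agent.Y121 Pool.Agent.Y121.AHS Pool.Agent.R914.UN
open Pool.Agent.Y133.Half (Sys PH Ev Adj ClassPred dimBy)
open Pool.Agent.Y133.Per (Base tm baseTr baseMap twist IsDeRham DeRham MapsInto base_ind mem_of_pair
  baseTr_nondeg baseTr_tm baseMap_tm tm_mul smul_tm tm_add tm_zero drbPred)
open Pool.Agent.R920.MT (Property Linear IsSubspace)
open Pool.Agent.H847.CG (perSub)

section alg

variable {K A B : Type} [Field K] [Ring A] [Algebra K A] [Ring B] [Algebra K B] [Algebra K ℂ]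
  {F : Subfield ℂ}

/-- The de Rham cohomology of degree `i`. -/
def dd (D : DRSub K A F) (i : ℕ) : Submodule F (ℂ ⊗[K] A) := D i

/-- The total de Rham cohomology. -/
noncomputable def tot (D : DRSub K A F) : Submodule F (ℂ ⊗[K] A) := ⨆ i, dd D i

lemma tot_of {D : DRSub K A F} {i : ℕ} {x : ℂ ⊗[K] A} (h : x ∈ dd D i) : x ∈ tot D :=
  Submodule.mem_iSup_of_mem i h

lemma tot_ind {D : DRSub K A F} {p : ℂ ⊗[K] A → Prop} (h0 : p 0)
    (h1 : ∀ i, ∀ x ∈ dd D i, p x) (h2 : ∀ x y, p x → p y → p (x + y)) {x : ℂ ⊗[K] A}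
    (hx : x ∈ tot D) : p x := Submodule.iSup_induction _ (motive := p) hx h1 h0 h2

variable {gr : ℕ → Submodule K A} {n : ℕ} {tr : A →ₗ[K] K} {D : DRSub K A F}

lemma dd_span (h : IsDeRhamAlg gr n tr D) (i : ℕ) :
    Submodule.span ℂ (dd D i : Set (ℂ ⊗[K] A)) = (gr i).baseChange ℂ := h.span i

lemma dd_gr (h : IsDeRhamAlg gr n tr D) {i : ℕ} {x : ℂ ⊗[K] A} (hx : x ∈ dd D i) :
    x ∈ (gr i).baseChange ℂ := by
  rw [← dd_span h]
  exact Submodule.subset_span hx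

lemma dd_mul (h : IsDeRhamAlg gr n tr D) {i j : ℕ} {x y : ℂ ⊗[K] A} (hx : x ∈ dd D i)
    (hy : y ∈ dd D j) : x * y ∈ dd D (i + j) := h.mul i j x y hx hy

lemma dd_tr (h : IsDeRhamAlg gr n tr D) {x : ℂ ⊗[K] A} (hx : x ∈ dd D (2 * n)) :
    ∃ r ∈ F, ev tr x = twoPiI ^ n * r := h.tr x hx

lemma base_ind' {p : ℂ ⊗[K] A → Prop} (h0 : p 0) (h1 : ∀ (z : ℂ) (c : A), p (z ⊗ₜ[K] c))
    (h2 : ∀ x y, p x → p y → p (x + y)) (x : ℂ ⊗[K] A) : p x :=
  TensorProduct.induction_on x h0 h1 h2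

lemma bc_ind {U : Submodule K A} {p : ℂ ⊗[K] A → Prop} (h0 : p 0)
    (h1 : ∀ (z : ℂ), ∀ c ∈ U, p (z ⊗ₜ[K] c)) (h2 : ∀ x y, p x → p y → p (x + y)) {x : ℂ ⊗[K] A}
    (hx : x ∈ U.baseChange ℂ) : p x := by
  have key : ∀ z : ℂ, p (z • x) := by
    rw [Submodule.baseChange_eq_span] at hx
    induction hx using Submodule.span_induction with
    | mem x hx =>
      obtain ⟨c, hc, rfl⟩ := hx
      intro z
      have e1 : z • (TensorProduct.mk K ℂ A 1 c) = z ⊗ₜ[K] c := by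
        rw [TensorProduct.mk_apply, TensorProduct.smul_tmul', smul_eq_mul, mul_one]
      rw [e1]
      exact h1 z c hc
    | zero => intro z; rw [smul_zero]; exact h0
    | add x y _ _ hx hy => intro z; rw [smul_add]; exact h2 _ _ (hx z) (hy z)
    | smul s x _ hx => intro z; rw [smul_smul]; exact hx _
  have := key 1
  rwa [one_smul] at this

end alg

variable {k : Type u} [Field k] {𝒱 : VarClass k} {ops : CycleOps 𝒱}
  {W : WeilCohomology.{u, 0} ops} [Algebra W.K ℂ] {F : Subfield ℂ} {D : DRFam W F} {X Y Z : 𝒱.Obj}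

lemma ev_ne {i : ℕ} (hi : i ≠ 2 * X.dim) {x : ℂ ⊗[W.K] W.H X}
    (hx : x ∈ (W.gr X i).baseChange ℂ) : ev (W.tr X) x = 0 := by
  refine bc_ind (p := fun x => ev (W.tr X) x = 0) (map_zero _) ?_ ?_ hx
  · intro z c hc
    rw [ev_tmul, W.tr_eq_zero hc hi, map_zero, mul_zero]
  · intro x y hx hy
    rw [map_add, hx, hy, add_zero]

lemma tot_tr (hD : IsDeRhamTheory D) {x : ℂ ⊗[W.K] W.H X} (hx : x ∈ tot (D X)) :
    ∃ r ∈ F, ev (W.tr X) x = twoPiI ^ X.dim * r := by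
  refine tot_ind (p := fun x => ∃ r ∈ F, ev (W.tr X) x = twoPiI ^ X.dim * r) ?_ ?_ ?_ hx
  · exact ⟨0, F.zero_mem, by rw [map_zero, mul_zero]⟩
  · intro i x hx
    by_cases hi : i = 2 * X.dim
    · subst hi
      exact dd_tr (hD.alg X) hx
    · exact ⟨0, F.zero_mem, by rw [ev_ne hi (dd_gr (hD.alg X) hx), mul_zero]⟩
  · rintro x y ⟨r, hr, h⟩ ⟨s, hs, h'⟩
    exact ⟨r + s, F.add_mem hr hs, by rw [map_add, h, h', mul_add]⟩

lemma tot_mul (hD : IsDeRhamTheory D) {x y : ℂ ⊗[W.K] W.H X} (hx : x ∈ tot (D X))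
    (hy : y ∈ tot (D X)) : x * y ∈ tot (D X) := by
  refine tot_ind (p := fun x => x * y ∈ tot (D X)) ?_ ?_ ?_ hx
  · rw [zero_mul]; exact Submodule.zero_mem _
  · intro i x hx
    refine tot_ind (p := fun y => x * y ∈ tot (D X)) ?_ ?_ ?_ hy
    · rw [mul_zero]; exact Submodule.zero_mem _
    · intro j y hy; exact tot_of (dd_mul (hD.alg X) hx hy)
    · intro y y' hy hy'; rw [mul_add]; exact Submodule.add_mem _ hy hy'
  · intro x x' hx hx'; rw [add_mul]; exact Submodule.add_mem _ hx hx'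

/-- The extension of a pull-back. -/
noncomputable def hmap (W : WeilCohomology.{u, 0} ops) [Algebra W.K ℂ] (f : X ⟶ Y) :
    (ℂ ⊗[W.K] W.H Y) →ₐ[ℂ] (ℂ ⊗[W.K] W.H X) :=
  Algebra.TensorProduct.map (AlgHom.id ℂ ℂ) (W.map f)

lemma hmap_tmul (f : X ⟶ Y) (z : ℂ) (a : W.H Y) :
    hmap W f (z ⊗ₜ[W.K] a) = z ⊗ₜ[W.K] W.map f a := Algebra.TensorProduct.map_tmul _ _ _ _

lemma dd_map (hD : IsDeRhamTheory D) (f : X ⟶ Y) {i : ℕ} {x : ℂ ⊗[W.K] W.H Y}
    (hx : x ∈ dd (D Y) i) : hmap W f x ∈ dd (D X) i := by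
  have h1 := hD.map X Y f i x hx
  have h2 : hmap W f x = (W.map f).toLinearMap.baseChange ℂ x := by
    refine base_ind' (p := fun x => hmap W f x = (W.map f).toLinearMap.baseChange ℂ x) ?_ ?_ ?_ x
    · rw [map_zero, map_zero]
    · intro z c; rw [hmap_tmul, LinearMap.baseChange_tmul]; rfl
    · intro x y hx hy; rw [map_add, map_add, hx, hy]
  rw [h2]
  exact h1

lemma tot_map (hD : IsDeRhamTheory D) (f : X ⟶ Y) {x : ℂ ⊗[W.K] W.H Y} (hx : x ∈ tot (D Y)) :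
    hmap W f x ∈ tot (D X) := by
  refine tot_ind (p := fun x => hmap W f x ∈ tot (D X)) ?_ ?_ ?_ hx
  · rw [map_zero]; exact Submodule.zero_mem _
  · intro i x hx; exact tot_of (dd_map hD f hx)
  · intro x y hx hy; rw [map_add]; exact Submodule.add_mem _ hx hy

lemma tot_span (hD : IsDeRhamTheory D) :
    Submodule.span ℂ (tot (D X) : Set (ℂ ⊗[W.K] W.H X)) = ⊤ := by
  rw [eq_top_iff]
  rintro x -
  have key : ∀ i, ∀ c ∈ W.gr X i, ∀ z : ℂ, (z ⊗ₜ[W.K] c : ℂ ⊗[W.K] W.H X) ∈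
      Submodule.span ℂ (tot (D X) : Set (ℂ ⊗[W.K] W.H X)) := by
    intro i c hc z
    have h1 : (z ⊗ₜ[W.K] c : ℂ ⊗[W.K] W.H X) ∈ (W.gr X i).baseChange ℂ :=
      Submodule.tmul_mem_baseChange_of_mem z hc
    rw [← dd_span (hD.alg X)] at h1
    exact Submodule.span_mono (fun y hy => tot_of hy) h1
  refine base_ind' (p := fun x => x ∈ Submodule.span ℂ (tot (D X) : Set (ℂ ⊗[W.K] W.H X)))
    (Submodule.zero_mem _) ?_ (fun x y hx hy => Submodule.add_mem _ hx hy) x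
  intro z c
  refine gr_induction (W.isInternal X) (p := fun c => (z ⊗ₜ[W.K] c : ℂ ⊗[W.K] W.H X) ∈
    Submodule.span ℂ (tot (D X) : Set (ℂ ⊗[W.K] W.H X))) (fun i c hc => key i c hc z) ?_ c
  intro a b ha hb
  rw [TensorProduct.tmul_add]
  exact Submodule.add_mem _ ha hb

/-- The classes of the algebraic cycles are de Rham. -/
lemma dd_cyc (hD : IsDeRhamTheory D) {j : ℕ} {z : X.Cycles} (hz : X.IsCyc j z) :
    ((twoPiI ^ j) ⊗ₜ[W.K] W.cl X z : ℂ ⊗[W.K] W.H X) ∈ dd (D X) (2 * j) := by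
  have h1 : ((twoPiI ^ j) ⊗ₜ[W.K] W.cl X z : ℂ ⊗[W.K] W.H X) =
      twoPiI ^ j • ((1 : ℂ) ⊗ₜ[W.K] W.cl X z) := by
    rw [TensorProduct.smul_tmul', smul_eq_mul, mul_one]
  rw [h1]
  exact hD.cyc X j z hz

/-- The de Rham structure. -/
noncomputable def toDR (hD : IsDeRhamTheory D) (hK : ∀ r : W.K, algebraMap W.K ℂ r ∈ F) :
    DeRham W F where
  dR X := {x | (show ℂ ⊗[W.K] W.H X from x) ∈ tot (D X)}
  form X :=
    { zero := Submodule.zero_mem (tot (D X))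
      add := fun a ha b hb => Submodule.add_mem (tot (D X)) ha hb
      smul := fun r hr a ha => Submodule.smul_mem (tot (D X)) (⟨r, hr⟩ : F) ha
      scal := hK
      span := tot_span hD
      mul := fun a ha b hb => tot_mul hD ha hb
      cyc := by
        rintro j _ ⟨z, hz, rfl⟩
        exact tot_of (dd_cyc hD hz)
      tr := fun a ha => tot_tr hD ha }
  map f := fun a ha => tot_map hD f ha

end Pool.Agent.H847.PG
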