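import Pool.Agent.H847.PG.Defs

/-!
# De Rham theories and periods: definitions

`F` is a subfield of `ℂ` (in the intended use the field of definition of the varieties, or the field
of all algebraic numbers), and `D X i` is the algebraic de Rham cohomology of degree `i`, as an
`F`-subspace of `H ^ i(X(ℂ), ℂ)`.
-/

open CategoryTheory AlgebraicGeometry

universe u

namespace Pool.Agent.H847.PG

open Pool.Agent.Y121.AHS (Ext extEm extMul extSub extMap extHom extForm)

/-- The number `2 π i`. -/
noncomputable def twoPiI : ℂ := 2 * Real.pi * Complex.I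

section alg

variable {K A B : Type} [Field K] [Ring A] [Algebra K A] [Ring B] [Algebra K B] [Algebra K ℂ]

/-- Graded `F`-subspaces of `ℂ ⊗ A`. -/
abbrev DRSub (K A : Type) [Field K] [Ring A] [Algebra K A] [Algebra K ℂ] (F : Subfield ℂ) :=
  ℕ → Submodule F (Ext K ℂ A)

variable {F : Subfield ℂ}

/-- The formal properties of the de Rham cohomology of a variety of dimension `n` with orientation
`tr`: it is a graded `F`-subalgebra `D` of `ℂ ⊗ A` which spans `ℂ ⊗ A`, and the values of `tr` on it
are in `(2 π i) ^ n F`. -/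
structure IsDeRhamAlg (gr : ℕ → Submodule K A) (n : ℕ) (tr : A →ₗ[K] K) (D : DRSub K A F) :
    Prop where
  span : ∀ i, Submodule.span ℂ (D i : Set (Ext K ℂ A)) = extSub K ℂ (gr i)
  mul : ∀ i j a b, a ∈ D i → b ∈ D j → extMul K ℂ a b ∈ D (i + j)
  tr : ∀ a ∈ D (2 * n), ∃ r ∈ F, extForm K ℂ tr a = twoPiI ^ n * r

/-- The class `c` is de Rham of codimension `j`: `(2 π i) ^ j c` is in `D (2 j)`. -/
def InDR (D : DRSub K A F) (j : ℕ) (c : A) : Prop := twoPiI ^ j • extEm K ℂ c ∈ D (2 * j)

/-- The homomorphism `f` respects the de Rham cohomology. -/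
def RespDR (f : B →ₐ[K] A) (D : DRSub K B F) (D' : DRSub K A F) : Prop :=
  ∀ i a, a ∈ D i → extHom K ℂ f a ∈ D' i

/-- The space of the periods: the span over `F` of the numbers `l(s)`, where `s` is de Rham and `l` is
a linear functional on `A` (a class in the homology with coefficients in `K`). -/
noncomputable def periods (D : DRSub K A F) : Submodule F ℂ :=
  Submodule.span F {z | ∃ i, ∃ s ∈ D i, ∃ l : A →ₗ[K] K, z = extForm K ℂ l s}

end alg

/-- The number `t` is the maximal number of elements of `V` which are algebraically independent over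
`F`. -/
structure HasTrdeg (F : Subfield ℂ) (V : Submodule F ℂ) (t : ℕ) : Prop where
  some : ∃ x : Fin t → ℂ, (∀ i, x i ∈ V) ∧ AlgebraicIndependent F x
  none : ∀ x : Fin (t + 1) → ℂ, (∀ i, x i ∈ V) → ¬ AlgebraicIndependent F x

/-! ### Varieties -/

open Pool.Agent.H914 Pool.Agent.H914.VarClass Pool.Agent.H914.VarClass.Obj
  Pool.Agent.H914.WeilCohomology

variable {k : Type u} [Field k] {𝒱 : VarClass k} {ops : CycleOps 𝒱}

/-- Families of `F`-subspaces `D X i` of the cohomology of the varieties `X` with complex
coefficients. -/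
abbrev DRFam (W : WeilCohomology.{u, 0} ops) [Algebra W.K ℂ] (F : Subfield ℂ) :=
  ∀ X : 𝒱.Obj, DRSub W.K (W.H X) F

variable {W : WeilCohomology.{u, 0} ops} [Algebra W.K ℂ] {F : Subfield ℂ}

/-- A de Rham theory: each `D X` has the formal properties of the de Rham cohomology of `X`, pull-backs
respect it, and the classes of the algebraic cycles are de Rham. -/
structure IsDeRhamTheory (D : DRFam W F) : Prop where
  alg : ∀ X, IsDeRhamAlg (W.gr X) X.dim (W.tr X) (D X)
  map : ∀ X Y (f : X ⟶ Y), RespDR (W.map f) (D Y) (D X)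
  cyc : ∀ X j z, X.IsCyc j z → InDR (D X) j (W.cl X z)

/-- The de Rham-Betti classes of codimension `j`: the classes `c` of degree `2 j` such that
`(2 π i) ^ j c` is in the de Rham cohomology. -/
def IsDRB (D : DRFam W F) (X : 𝒱.Obj) (j : ℕ) (c : W.H X) : Prop :=
  c ∈ W.gr X (2 * j) ∧ InDR (D X) j c

/-- The number of linearly independent de Rham-Betti classes (of all codimensions) on `X`. -/
noncomputable def drbNum (D : DRFam W F) (X : 𝒱.Obj) : ℕ :=
  Set.finrank W.K {c | ∃ j, IsDRB D X j c}

/-- The number of linearly independent periods of `X`. -/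
noncomputable def perNum (D : DRFam W F) (X : 𝒱.Obj) : ℕ := Module.finrank F (periods (D X))

/-- The transcendence degree of the periods of `X` is `t`. -/
def PerDeg (D : DRFam W F) (X : 𝒱.Obj) (t : ℕ) : Prop := HasTrdeg F (periods (D X)) t

end Pool.Agent.H847.PG
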