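import Pool.Agent.H847.PG.RNorm
import Pool.Agent.H847.PG.Conv3

/-!
# The growth of the number of the periods and of the number of the classes
-/

set_option linter.unusedSectionVars false
set_option linter.unusedVariables false

open CategoryTheory AlgebraicGeometry CategoryTheory.Limits TensorProduct

universe u v w

namespace Pool.Agent.H847.PG

open Pool.Agent.H914 Pool.Agent.H447 Pool.Agent.W534 Pool.Agent.Y163 VarClass Obj WeilCohomology
  Module
open Pool.Agent.Y121 Pool.Agent.Y121.AHS Pool.Agent.R914.UN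
open Pool.Agent.Y133.Half (Sys PH Ev Adj ClassPred dimBy)
open Pool.Agent.R920.MT (Property Linear IsSubspace)
open Pool.Agent.H847.CG (perSub trF commSub corrs)

variable {k : Type u} [Field k] {𝒱 : VarClass k} {ops : CycleOps 𝒱}
  {W : WeilCohomology.{u, 0} ops} [Algebra W.K ℂ] {F : Subfield ℂ} {D : DRFam W F} {X Y Z : 𝒱.Obj}

lemma drb_iff (hD : IsDeRhamTheory D) (hK : ∀ r : W.K, algebraMap W.K ℂ r ∈ F) (X : 𝒱.Obj)
    (j : ℕ) (c : W.H X) : IsDRB D X j c ↔ Pool.Agent.Y133.Per.IsDRB (toDR hD hK) X j c := by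
  have e : (twoPiI ^ j • ((1 : ℂ) ⊗ₜ[W.K] c) : ℂ ⊗[W.K] W.H X) = (twoPiI ^ j) ⊗ₜ[W.K] c := by
    rw [TensorProduct.smul_tmul', smul_eq_mul, mul_one]
  constructor
  · rintro ⟨h1, h2⟩
    refine ⟨h1, ?_⟩
    have h3 : (twoPiI ^ j • ((1 : ℂ) ⊗ₜ[W.K] c) : ℂ ⊗[W.K] W.H X) ∈ dd (D X) (2 * j) := h2
    rw [e] at h3
    exact tot_of h3
  · rintro ⟨h1, h2⟩
    refine ⟨h1, ?_⟩
    have h3 : ((twoPiI ^ j) ⊗ₜ[W.K] c : ℂ ⊗[W.K] W.H X) ∈ tot (D X) := h2
    have h4 := dd_of_tot hD (i := 2 * j) h3 (Submodule.tmul_mem_baseChange_of_mem _ h1)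
    rw [← e] at h4
    exact h4

/-- The de Rham-Betti classes form a system of classes. -/
lemma isClass_drb (hD : IsDeRhamTheory D) (hK : ∀ r : W.K, algebraMap W.K ℂ r ∈ F) :
    CG.IsClassSystem (W := W) (fun X j c => IsDRB D X j c) := by
  have e : (fun (X : 𝒱.Obj) (j : ℕ) (c : W.H X) => IsDRB D X j c) =
      fun X j c => (Pool.Agent.Y133.Per.drbPred (toDR hD hK)).P X j c := by
    funext X j c
    exact propext (drb_iff hD hK X j c)
  rw [e]
  set Q := Pool.Agent.Y133.Per.drbPred (toDR hD hK)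
  exact
    { lin := fun X j => ⟨{ carrier := {c | Q.P X j c}
                           add_mem' := fun ha hb => Q.add ha hb
                           zero_mem' := Q.zero
                           smul_mem' := fun r _ h => Q.smul r h }, fun _ => Iff.rfl⟩
      cyc := fun _ _ _ hz => Q.cl hz
      mul := fun _ _ _ _ _ ha hb => Q.mul ha hb
      map := fun _ _ f _ _ h => Q.map f h
      push := fun _ _ f _ _ _ hl h => Q.push f hl h
      deg := fun _ _ _ h => Q.gr h }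

/-- Comparison of polynomial orders of growth. -/
lemma poly_le {s t : ℕ → ℕ} {a b d : ℕ} (hs : HasPoly a s) (ht : HasPoly b t)
    (h : ∀ n, s n ≤ (2 * ((n + 1) * d) + 1) * t n) : a ≤ b + 1 := by
  obtain ⟨c₁, C₁, hc₁, h₁⟩ := hs
  obtain ⟨c₂, C₂, hc₂, h₂⟩ := ht
  have key : ∀ n : ℕ, ((n : ℝ) + 1) ^ ((a : ℝ) - (b + 1)) ≤ (2 * d + 1) * C₂ / c₁ := by
    intro n
    have hx : (0 : ℝ) < (n : ℝ) + 1 := by positivity
    have hx1 : (1 : ℝ) ≤ (n : ℝ) + 1 := by
      have := Nat.cast_nonneg (α := ℝ) n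
      linarith
    have h3 := (h₁ n).1
    have h4 := (h₂ n).2
    have h5 : (s n : ℝ) ≤ (2 * (((n : ℝ) + 1) * d) + 1) * t n := by
      have := h n
      exact_mod_cast this
    have h6 : (2 * (((n : ℝ) + 1) * d) + 1) ≤ (2 * d + 1) * ((n : ℝ) + 1) := by
      nlinarith [Nat.cast_nonneg (α := ℝ) d]
    have h7 : (s n : ℝ) ≤ (2 * d + 1) * ((n : ℝ) + 1) * (C₂ * ((n : ℝ) + 1) ^ b) :=
      h5.trans (mul_le_mul h6 h4 (Nat.cast_nonneg _) (by positivity))
    have h8 : c₁ * ((n : ℝ) + 1) ^ a ≤ (2 * d + 1) * C₂ * ((n : ℝ) + 1) ^ (b + 1) := by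
      refine (h3.trans h7).trans (le_of_eq ?_)
      rw [pow_succ]
      ring
    rw [Real.rpow_sub hx, le_div_iff₀ hc₁, Real.rpow_natCast]
    have e1 : ((b : ℝ) + 1) = ((b + 1 : ℕ) : ℝ) := by push_cast; ring
    rw [e1, Real.rpow_natCast, div_mul_eq_mul_div, div_le_iff₀ (by positivity)]
    linarith
  have h9 := CG.rpow_bdd key
  have h10 : (a : ℝ) ≤ b + 1 := by linarith
  exact_mod_cast h10

/-- The numerical criterion. -/
lemma crit_iff {b : ℝ} {a t : ℕ} {p q : ℕ → ℕ} (hb : 0 < b) (hp : HasOrder b a p)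
    (hq : HasPoly t q) (hta : t ≤ a + 1) : t = a + 1 ↔
      ∃ c : ℝ, 0 < c ∧ ∀ n : ℕ, c * (b ^ (2 * n) * (n + 1)) ≤ (p n : ℝ) ^ 2 * q n := by
  obtain ⟨c₁, C₁, hc₁, h₁⟩ := hp
  obtain ⟨c₂, C₂, hc₂, h₂⟩ := hq
  have hsq : ∀ n : ℕ, (((n : ℝ) + 1) ^ (-(a : ℝ) / 2)) ^ 2 * ((n : ℝ) + 1) ^ a = 1 := by
    intro n
    have hx : (0 : ℝ) < (n : ℝ) + 1 := by positivity
    rw [← Real.rpow_natCast, ← Real.rpow_natCast, ← Real.rpow_mul hx.le, ← Real.rpow_add hx]
    have e : -(a : ℝ) / 2 * ((2 : ℕ) : ℝ) + (a : ℝ) = 0 := by push_cast; ring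
    rw [e, Real.rpow_zero]
  constructor
  · rintro rfl
    refine ⟨c₁ ^ 2 * c₂, by positivity, fun n => ?_⟩
    have hx : (0 : ℝ) < (n : ℝ) + 1 := by positivity
    have h3 : (c₁ * (b ^ n * ((n : ℝ) + 1) ^ (-(a : ℝ) / 2))) ^ 2 *
        (c₂ * ((n : ℝ) + 1) ^ (a + 1)) ≤ (p n : ℝ) ^ 2 * q n :=
      mul_le_mul (pow_le_pow_left₀ (by positivity) (h₁ n).1 2) (h₂ n).1 (by positivity)
        (by positivity)
    refine le_trans (le_of_eq ?_) h3
    have e : (c₁ * (b ^ n * ((n : ℝ) + 1) ^ (-(a : ℝ) / 2))) ^ 2 *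
        (c₂ * ((n : ℝ) + 1) ^ (a + 1)) = c₁ ^ 2 * c₂ * (b ^ (2 * n) * ((n : ℝ) + 1)) *
          ((((n : ℝ) + 1) ^ (-(a : ℝ) / 2)) ^ 2 * ((n : ℝ) + 1) ^ a) := by
      rw [pow_succ ((n : ℝ) + 1) a, mul_comm 2 n, pow_mul]
      ring
    rw [e, hsq, mul_one]
  · rintro ⟨c, hc, h3⟩
    have key : ∀ n : ℕ, ((n : ℝ) + 1) ^ (((a : ℝ) + 1) - t) ≤ C₁ ^ 2 * C₂ / c := by
      intro n
      have hx : (0 : ℝ) < (n : ℝ) + 1 := by positivity
      have hbn : (0 : ℝ) < b ^ (2 * n) := by positivity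
      have h4 : (p n : ℝ) ^ 2 * q n ≤ (C₁ * (b ^ n * ((n : ℝ) + 1) ^ (-(a : ℝ) / 2))) ^ 2 *
          (C₂ * ((n : ℝ) + 1) ^ t) :=
        mul_le_mul (pow_le_pow_left₀ (by positivity) (h₁ n).2 2) (h₂ n).2 (by positivity)
          (by positivity)
      have h5 := (h3 n).trans h4
      have h6 : c * (b ^ (2 * n) * ((n : ℝ) + 1)) * ((n : ℝ) + 1) ^ a ≤
          C₁ ^ 2 * C₂ * b ^ (2 * n) * ((n : ℝ) + 1) ^ t := by
        refine (mul_le_mul_of_nonneg_right h5 (by positivity)).trans (le_of_eq ?_)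
        have e : (C₁ * (b ^ n * ((n : ℝ) + 1) ^ (-(a : ℝ) / 2))) ^ 2 *
            (C₂ * ((n : ℝ) + 1) ^ t) * ((n : ℝ) + 1) ^ a =
            C₁ ^ 2 * C₂ * b ^ (2 * n) * ((n : ℝ) + 1) ^ t *
              ((((n : ℝ) + 1) ^ (-(a : ℝ) / 2)) ^ 2 * ((n : ℝ) + 1) ^ a) := by
          rw [mul_comm 2 n, pow_mul]
          ring
        rw [e, hsq, mul_one]
      have h7 : c * ((n : ℝ) + 1) ^ (a + 1) ≤ C₁ ^ 2 * C₂ * ((n : ℝ) + 1) ^ t := by
        refine le_of_mul_le_mul_left ?_ hbn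
        calc b ^ (2 * n) * (c * ((n : ℝ) + 1) ^ (a + 1))
            = c * (b ^ (2 * n) * ((n : ℝ) + 1)) * ((n : ℝ) + 1) ^ a := by rw [pow_succ]; ring
          _ ≤ _ := h6
          _ = _ := by ring
      rw [Real.rpow_sub hx, le_div_iff₀ hc, Real.rpow_natCast]
      have e1 : ((a : ℝ) + 1) = ((a + 1 : ℕ) : ℝ) := by push_cast; ring
      rw [e1, Real.rpow_natCast, div_mul_eq_mul_div, div_le_iff₀ (by positivity)]
      linarith
    have h9 := CG.rpow_bdd key
    have h10 : (a : ℝ) + 1 ≤ t := by linarith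
    have h11 : a + 1 ≤ t := by exact_mod_cast h10
    omega

lemma dim_pw (X : 𝒱.Obj) : ∀ n, (pw X n).dim = (n + 1) * X.dim
  | 0 => by
    have h : pw X 0 = X := rfl
    rw [h]; ring
  | n + 1 => by
    have h : pw X (n + 1) = X.prod (pw X n) := rfl
    rw [h, Obj.dim_prod, dim_pw X n]
    ring

/-- **The growth laws for the periods and the classes on the powers.** -/
theorem period_law {pq : HTypes W} (hW : IsHodgeTheory pq) (hD : IsDeRhamTheory D) (X : 𝒱.Obj)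
    [Nontrivial (W.H X)] : ∃ t : ℕ, PerDeg D X t ∧ HasPoly t (fun n => perNum D (pw X n)) ∧
      ∀ S : Classes W, IsPolarisedBy pq X S → (∀ Y j c, Lies (S Y) j c → IsDRB D Y j c) →
        ∃ a : ℕ, HasOrder (bettiSum W X) a (fun n => numOf S (pw X n)) ∧
          HasPoly a (groupDim S X) ∧
          (∀ n, perNum D (pw X n) ≤ (2 * (pw X n).dim + 1) * groupDim S X n) ∧ t ≤ a + 1 ∧
          ((∃ N : ℕ, 1 ≤ N ∧ (N = 1 ↔ ∀ n j c, IsDRB D (pw X n) j c → Lies (S (pw X n)) j c) ∧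
            NearIndex N (fun n => drbNum D (pw X n)) (fun n => numOf S (pw X n))) ∨
          SqrtGap (fun n => drbNum D (pw X n)) (fun n => numOf S (pw X n))) ∧
          (t = a + 1 → ∀ S' : Classes W, (∀ Y j c, Lies (S Y) j c → Lies (S' Y) j c) →
            IsPolarisedBy pq X S' → (∀ Y j c, Lies (S' Y) j c → IsDRB D Y j c) →
            ∃ N : ℕ, 1 ≤ N ∧
              (N = 1 ↔ ∀ n j c, Lies (S' (pw X n)) j c → Lies (S (pw X n)) j c) ∧
              NearIndex N (fun n => numOf S' (pw X n)) (fun n => numOf S (pw X n))) := by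
  have hK : ∀ r : W.K, algebraMap W.K ℂ r ∈ F := by
    intro r
    obtain ⟨q, rfl⟩ := hW.rat r
    rw [map_ratCast]
    exact SubfieldClass.ratCast_mem F q
  obtain ⟨t, h1, h2⟩ := per_growth hD hK X
  have hnt : Nontrivial ((toT hW).W.H X) := ‹Nontrivial (W.H X)›
  have key : ∀ S : Classes W, IsPolarisedBy pq X S →
      (∀ Y j c, Lies (S Y) j c → IsDRB D Y j c) →
        ∃ a : ℕ, HasOrder (bettiSum W X) a (fun n => numOf S (pw X n)) ∧
          HasPoly a (groupDim S X) ∧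
          (∀ n, perNum D (pw X n) ≤ (2 * (pw X n).dim + 1) * groupDim S X n) ∧ t ≤ a + 1 ∧
          ∀ P' : Property W, CG.IsClassSystem P' → (∀ Y j c, Lies (S Y) j c → P' Y j c) →
            (∃ N : ℕ, 1 ≤ N ∧ (N = 1 ↔ ∀ n j c, P' (pw X n) j c → Lies (S (pw X n)) j c) ∧
              NearIndex N (fun n => dimBy W P' (pw X n)) (fun n => numOf S (pw X n))) ∨
            SqrtGap (fun n => dimBy W P' (pw X n)) (fun n => numOf S (pw X n)) := by
    intro S hS hSD
    obtain ⟨γ, hγ, hpol⟩ := hS.pol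
    obtain ⟨a, h3, h4, h5⟩ := CG.pair_law (toT hW) (nonneg_toT hW) X (sym_toT hW X) (toP S)
      (isClass_toP hS.sys) hS.hodge (pol_toT hW hpol) (given_toT hW hγ)
    have h6 := CG.prop_comm (toT hW) (nonneg_toT hW) X (sym_toT hW X) (toP S)
      (isClass_toP hS.sys) hS.hodge (pol_toT hW hpol) (given_toT hW hγ)
    have e1 : (fun n => dimBy W (toP S) (pw X n)) = fun n => numOf S (pw X n) :=
      funext fun n => dim_toP S (pw X n)
    have e2 : CG.polyDim W (toP S) X = groupDim S X := funext fun n => (groupDim_eq S X n).symm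
    have h7 : ∀ n, perNum D (pw X n) ≤ (2 * (pw X n).dim + 1) * groupDim S X n := by
      intro n
      refine (perNum_le hD hK (pw X n) (P := toP S) fun j c hc => hSD _ j c hc).trans ?_
      rw [← e2]
      exact Nat.mul_le_mul_left _ (h6 n)
    have h8 : HasPoly a (groupDim S X) := by rw [← e2]; exact h4
    refine ⟨a, ?_, h8, h7, ?_, ?_⟩
    · rw [← e1]; exact h3
    · refine poly_le h2 h8 (d := X.dim) fun n => ?_
      have h9 := h7 n
      rw [dim_pw] at h9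
      exact h9
    · intro P' hP' hle
      have h9 := h5 P' hP' hle
      have e3 : (fun n => dimBy (toT hW).W (toP S) (pw X n)) = fun n => numOf S (pw X n) := e1
      rw [e3] at h9
      exact h9
  refine ⟨t, h1, h2, fun S hS hSD => ?_⟩
  obtain ⟨a, h3, h4, h5, h6, h7⟩ := key S hS hSD
  refine ⟨a, h3, h4, h5, h6, h7 _ (isClass_drb hD hK) hSD, fun hta S' hle hS' hSD' => ?_⟩
  obtain ⟨a', h3', -, -, h6', -⟩ := key S' hS' hSD'
  have hb : (0 : ℝ) < bettiSum W X := by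
    have : 0 < finrank W.K (W.H X) := finrank_pos
    exact_mod_cast this
  have hnum : ∀ n, numOf S (pw X n) ≤ numOf S' (pw X n) := by
    intro n
    refine Submodule.finrank_mono (iSup_mono fun j c hc => ?_)
    exact hle (pw X n) j c hc
  have e1 : (fun n => dimBy W (toP S') (pw X n)) = fun n => numOf S' (pw X n) :=
    funext fun n => dim_toP S' (pw X n)
  have h8 := h7 (toP S') (isClass_toP hS'.sys) hle
  rw [e1] at h8
  rcases h8 with h8 | h8
  · exact h8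
  · have := CG.order_lt_of_gap hb h3 h3' h8
    omega

end Pool.Agent.H847.PG
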