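import Pool.Agent.H847.PG.RPow

/-!
# The normalised de Rham structure, and the bound for the number of the periods
-/

set_option linter.unusedSectionVars false
set_option linter.unusedVariables false

open CategoryTheory AlgebraicGeometry CategoryTheory.Limits TensorProduct

universe u v w

namespace Pool.Agent.H847.PG

open Pool.Agent.H914 Pool.Agent.H447 Pool.Agent.W534 Pool.Agent.Y163 VarClass Obj WeilCohomology
  Module
open Pool.Agent.Y121 Pool.Agent.Y121.AHS Pool.Agent.R914.UN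
open Pool.Agent.Y133.Half (Sys PH Ev Adj ClassPred dimBy)
open Pool.Agent.Y133.Per (mem_of_pair baseTr_nondeg)
open Pool.Agent.R920.MT (Property Linear IsSubspace)
open Pool.Agent.H847.CG (perSub trF commSub corrs)

section alg

variable {K A : Type} [Field K] [Ring A] [Algebra K A] [Algebra K ℂ] {F : Subfield ℂ}

/-- The normalised de Rham structure. -/
noncomputable def nor (q : ℂ) (D : DRSub K A F) : Submodule F (ℂ ⊗[K] A) :=
  Submodule.span F {x | ∃ i, ∃ s ∈ dd D i, x = (q ^ i)⁻¹ • s}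

variable {q : ℂ} {D : DRSub K A F}

lemma nor_of {i : ℕ} {s : ℂ ⊗[K] A} (hs : s ∈ dd D i) : (q ^ i)⁻¹ • s ∈ nor q D :=
  Submodule.subset_span ⟨i, s, hs, rfl⟩

lemma smulF_comm (r : F) (z : ℂ) (x : ℂ ⊗[K] A) : r • z • x = z • r • x := by
  have h1 : ∀ y : ℂ ⊗[K] A, r • y = (r : ℂ) • y := fun _ => rfl
  rw [h1, h1, smul_smul, smul_smul, mul_comm]

lemma nor_ind {p : ℂ ⊗[K] A → Prop} (h0 : p 0) (h1 : ∀ i, ∀ s ∈ dd D i, p ((q ^ i)⁻¹ • s))
    (h2 : ∀ x y, p x → p y → p (x + y)) {x : ℂ ⊗[K] A} (hx : x ∈ nor q D) : p x := by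
  have key : ∀ r : F, p (r • x) := by
    refine Submodule.span_induction (p := fun x _ => ∀ r : F, p (r • x)) ?_ ?_ ?_ ?_ hx
    · rintro _ ⟨i, s, hs, rfl⟩ r
      rw [smulF_comm]
      exact h1 i _ (Submodule.smul_mem _ r hs)
    · intro r; rw [smul_zero]; exact h0
    · intro x y _ _ hx hy r; rw [smul_add]; exact h2 _ _ (hx r) (hy r)
    · intro s x _ hx r; rw [smul_smul]; exact hx _
  have := key 1
  rwa [one_smul] at this

lemma bc_zero {s : ℂ ⊗[K] A} (h : s ∈ (⊥ : Submodule K A).baseChange ℂ) : s = 0 := by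
  refine bc_ind (p := fun s => s = 0) rfl ?_ ?_ h
  · intro z c hc
    rw [(Submodule.mem_bot K).1 hc, TensorProduct.tmul_zero]
  · rintro x y rfl rfl; exact add_zero _

end alg

variable {k : Type u} [Field k] {𝒱 : VarClass k} {ops : CycleOps 𝒱}
  {W : WeilCohomology.{u, 0} ops} [Algebra W.K ℂ] {F : Subfield ℂ} {D : DRFam W F} {X Y Z : 𝒱.Obj}
  {q : ℂ}

lemma nor_span (hD : IsDeRhamTheory D) (hq : q ≠ 0) :
    Submodule.span ℂ (nor q (D X) : Set (ℂ ⊗[W.K] W.H X)) = ⊤ := by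
  rw [eq_top_iff, ← tot_span hD (X := X)]
  refine Submodule.span_le.2 fun x hx => ?_
  refine tot_ind (p := fun x => x ∈ Submodule.span ℂ (nor q (D X) : Set (ℂ ⊗[W.K] W.H X)))
    (Submodule.zero_mem _) ?_ (fun x y hx hy => Submodule.add_mem _ hx hy) hx
  intro i x hx
  have h1 : x = q ^ i • ((q ^ i)⁻¹ • x) := by
    rw [smul_smul, mul_inv_cancel₀ (pow_ne_zero _ hq), one_smul]
  rw [h1]
  exact Submodule.smul_mem _ _ (Submodule.subset_span (nor_of hx))

lemma nor_tr (hD : IsDeRhamTheory D) (hq : q ≠ 0) (hq2 : q ^ 2 = twoPiI)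
    {x y : ℂ ⊗[W.K] W.H X} (hx : x ∈ nor q (D X)) (hy : y ∈ nor q (D X)) :
    ∃ r ∈ F, ev (W.tr X) (x * y) = 1 * r := by
  refine nor_ind (p := fun x => ∃ r ∈ F, ev (W.tr X) (x * y) = 1 * r) ?_ ?_ ?_ hx
  · exact ⟨0, F.zero_mem, by rw [zero_mul, map_zero, mul_zero]⟩
  · intro i s hs
    refine nor_ind (p := fun y => ∃ r ∈ F, ev (W.tr X) ((q ^ i)⁻¹ • s * y) = 1 * r) ?_ ?_ ?_ hy
    · exact ⟨0, F.zero_mem, by rw [mul_zero, map_zero, mul_zero]⟩
    · intro j t ht
      have h1 := dd_mul (hD.alg X) hs ht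
      have h2 : ev (W.tr X) ((q ^ i)⁻¹ • s * (q ^ j)⁻¹ • t) =
          (q ^ (i + j))⁻¹ * ev (W.tr X) (s * t) := by
        rw [smul_mul_assoc, mul_smul_comm, smul_smul, map_smul, smul_eq_mul, pow_add, mul_inv]
      by_cases hij : i + j = 2 * X.dim
      · rw [hij] at h1 h2
        obtain ⟨r, hr, h3⟩ := dd_tr (hD.alg X) h1
        refine ⟨r, hr, ?_⟩
        rw [h2, h3, pow_mul, hq2, ← mul_assoc,
          inv_mul_cancel₀ (pow_ne_zero _ twoPiI_ne')]
      · refine ⟨0, F.zero_mem, ?_⟩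
        rw [h2, ev_ne hij (dd_gr (hD.alg X) h1), mul_zero, mul_zero]
    · rintro y y' ⟨r, hr, h⟩ ⟨s, hs, h'⟩
      exact ⟨r + s, F.add_mem hr hs, by rw [mul_add, map_add, h, h', mul_add]⟩
  · rintro x x' ⟨r, hr, h⟩ ⟨s, hs, h'⟩
    exact ⟨r + s, F.add_mem hr hs, by rw [add_mul, map_add, h, h', mul_add]⟩

/-- The projection to the elements of degree `i`. -/
noncomputable def prC (W : WeilCohomology.{u, 0} ops) [Algebra W.K ℂ] (X : 𝒱.Obj) (i : ℕ) :
    (ℂ ⊗[W.K] W.H X) →ₗ[ℂ] (ℂ ⊗[W.K] W.H X) := (H914.proj (W.isInternal X) i).baseChange ℂ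

lemma prC_same {i : ℕ} {x : ℂ ⊗[W.K] W.H X} (hx : x ∈ (W.gr X i).baseChange ℂ) :
    prC W X i x = x := by
  refine bc_ind (p := fun x => prC W X i x = x) (map_zero _) ?_ ?_ hx
  · intro z c hc
    rw [prC, LinearMap.baseChange_tmul, proj_same _ hc]
  · intro x y hx hy; rw [map_add, hx, hy]

lemma prC_ne {i j : ℕ} (h : i ≠ j) {x : ℂ ⊗[W.K] W.H X} (hx : x ∈ (W.gr X i).baseChange ℂ) :
    prC W X j x = 0 := by
  refine bc_ind (p := fun x => prC W X j x = 0) (map_zero _) ?_ ?_ hx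
  · intro z c hc
    rw [prC, LinearMap.baseChange_tmul, proj_ne _ hc h, TensorProduct.tmul_zero]
  · intro x y hx hy; rw [map_add, hx, hy, add_zero]

lemma dd_of_tot (hD : IsDeRhamTheory D) {i : ℕ} {x : ℂ ⊗[W.K] W.H X} (hx : x ∈ tot (D X))
    (h : x ∈ (W.gr X i).baseChange ℂ) : x ∈ dd (D X) i := by
  rw [← prC_same h]
  refine tot_ind (p := fun x => prC W X i x ∈ dd (D X) i) ?_ ?_ ?_ hx
  · rw [map_zero]; exact Submodule.zero_mem _
  · intro j x hx
    by_cases hj : j = i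
    · subst hj
      rw [prC_same (dd_gr (hD.alg X) hx)]
      exact hx
    · rw [prC_ne hj (dd_gr (hD.alg X) hx)]
      exact Submodule.zero_mem _
  · intro x y hx hy; rw [map_add]; exact Submodule.add_mem _ hx hy

/-- Membership in the de Rham cohomology can be tested with the pairing. -/
lemma mem_tot (hD : IsDeRhamTheory D) {x : ℂ ⊗[W.K] W.H X}
    (h : ∀ w ∈ tot (D X), ∃ r ∈ F, ev (W.tr X) (x * w) = twoPiI ^ X.dim * r) :
    x ∈ tot (D X) :=
  mem_of_pair _ (tot_span hD) (trB W X) (fun x h => trB_nondeg h)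
    (fun x hx y hy => trB_mem (tot_tr hD (tot_mul hD hx hy))) (fun y hy => trB_mem (h y hy))

/-- The extension of a push-forward. -/
noncomputable def puC (W : WeilCohomology.{u, 0} ops) [Algebra W.K ℂ] (f : X ⟶ Y) :
    (ℂ ⊗[W.K] W.H X) →ₗ[ℂ] (ℂ ⊗[W.K] W.H Y) := (W.push f).baseChange ℂ

lemma puC_tmul (f : X ⟶ Y) (z : ℂ) (a : W.H X) : puC W f (z ⊗ₜ[W.K] a) = z ⊗ₜ[W.K] W.push f a :=
  LinearMap.baseChange_tmul _ _ _

lemma ev_puC (f : X ⟶ Y) (x : ℂ ⊗[W.K] W.H X) (w : ℂ ⊗[W.K] W.H Y) :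
    ev (W.tr Y) (puC W f x * w) = ev (W.tr X) (x * hmap W f w) := by
  refine base_ind' (p := fun x => ev (W.tr Y) (puC W f x * w) =
    ev (W.tr X) (x * hmap W f w)) ?_ ?_ ?_ x
  · rw [map_zero, zero_mul, zero_mul, map_zero, map_zero]
  · intro z a
    refine base_ind' (p := fun w => ev (W.tr Y) (puC W f (z ⊗ₜ[W.K] a) * w) =
      ev (W.tr X) (z ⊗ₜ[W.K] a * hmap W f w)) ?_ ?_ ?_ w
    · rw [map_zero, mul_zero, mul_zero, map_zero, map_zero]
    · intro y b
      rw [puC_tmul, hmap_tmul, Algebra.TensorProduct.tmul_mul_tmul,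
        Algebra.TensorProduct.tmul_mul_tmul, ev_tmul, ev_tmul, W.tr_push]
    · intro y y' hy hy'
      rw [mul_add, map_add, hy, hy', map_add, mul_add, map_add]
  · intro x x' hx hx'
    rw [map_add, add_mul, map_add, hx, hx', add_mul, map_add]

lemma puC_gr (f : X ⟶ Y) {i i' : ℕ} (h : i' + 2 * X.dim = i + 2 * Y.dim) {x : ℂ ⊗[W.K] W.H X}
    (hx : x ∈ (W.gr X i).baseChange ℂ) : puC W f x ∈ (W.gr Y i').baseChange ℂ := by
  refine bc_ind (p := fun x => puC W f x ∈ (W.gr Y i').baseChange ℂ) ?_ ?_ ?_ hx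
  · rw [map_zero]; exact Submodule.zero_mem _
  · intro z c hc
    rw [puC_tmul]
    refine Submodule.tmul_mem_baseChange_of_mem z ?_
    have h2 := W.push_mem f hc
    have e1 : (i : ℤ) + 2 * ((Y.dim : ℤ) - X.dim) = (i' : ℤ) := by omega
    rw [e1, grZ_natCast] at h2
    exact h2
  · intro x y hx hy; rw [map_add]; exact Submodule.add_mem _ hx hy

lemma puC_zero (f : X ⟶ Y) {i : ℕ} (h : i + 2 * Y.dim < 2 * X.dim) {x : ℂ ⊗[W.K] W.H X}
    (hx : x ∈ (W.gr X i).baseChange ℂ) : puC W f x = 0 := by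
  refine bc_ind (p := fun x => puC W f x = 0) (map_zero _) ?_ ?_ hx
  · intro z c hc
    have h2 := W.push_mem f hc
    rw [grZ_of_neg (by omega)] at h2
    rw [puC_tmul, (Submodule.mem_bot W.K).1 h2, TensorProduct.tmul_zero]
  · intro x y hx hy; rw [map_add, hx, hy, add_zero]

/-- Push-forwards of de Rham classes. -/
lemma puC_dd (hD : IsDeRhamTheory D) (f : X ⟶ Y) {i i' : ℕ}
    (h : i' + 2 * X.dim = i + 2 * Y.dim) {x : ℂ ⊗[W.K] W.H X} (hx : x ∈ dd (D X) i) :
    ∃ b ∈ dd (D Y) i', twoPiI ^ Y.dim • puC W f x = twoPiI ^ X.dim • b := by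
  have h0 : twoPiI ^ X.dim ≠ 0 := pow_ne_zero _ twoPiI_ne'
  refine ⟨(twoPiI ^ X.dim)⁻¹ • twoPiI ^ Y.dim • puC W f x, ?_, ?_⟩
  · refine dd_of_tot hD (mem_tot hD fun w hw => ?_)
      (Submodule.smul_mem _ _ (Submodule.smul_mem _ _ (puC_gr f h (dd_gr (hD.alg X) hx))))
    obtain ⟨r, hr, h1⟩ := tot_tr hD (tot_mul hD (tot_of hx) (tot_map hD f hw))
    refine ⟨r, hr, ?_⟩
    rw [smul_mul_assoc, smul_mul_assoc, map_smul, map_smul, ev_puC, h1, smul_eq_mul, smul_eq_mul]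
    have e1 : (twoPiI ^ X.dim)⁻¹ * (twoPiI ^ Y.dim * (twoPiI ^ X.dim * r)) =
        (twoPiI ^ X.dim)⁻¹ * twoPiI ^ X.dim * (twoPiI ^ Y.dim * r) := by ring
    rw [e1, inv_mul_cancel₀ h0, one_mul]
  · rw [smul_smul, mul_inv_cancel₀ h0, one_smul]

/-- The action of a correspondence. -/
lemma corr_base (c : W.H (X.prod X)) (x : ℂ ⊗[W.K] W.H X) :
    (W.corr c).baseChange ℂ x = puC W (snd X X) (((1 : ℂ) ⊗ₜ[W.K] c) * hmap W (fst X X) x) := by
  refine base_ind' (p := fun x => (W.corr c).baseChange ℂ x =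
    puC W (snd X X) (((1 : ℂ) ⊗ₜ[W.K] c) * hmap W (fst X X) x)) ?_ ?_ ?_ x
  · rw [map_zero, map_zero, mul_zero, map_zero]
  · intro z a
    rw [LinearMap.baseChange_tmul, corr_apply, hmap_tmul, Algebra.TensorProduct.tmul_mul_tmul,
      one_mul, puC_tmul]
  · intro x y hx hy
    rw [map_add, hx, hy, map_add, mul_add, map_add]

/-- The normalised structure is stable under the correspondences. -/
lemma nor_corr (hD : IsDeRhamTheory D) (hq : q ≠ 0) (hq2 : q ^ 2 = twoPiI) {j : ℕ}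
    {c : W.H (X.prod X)} (hc : IsDRB D (X.prod X) j c) {x : ℂ ⊗[W.K] W.H X}
    (hx : x ∈ nor q (D X)) : (W.corr c).baseChange ℂ x ∈ nor q (D X) := by
  refine nor_ind (p := fun x => (W.corr c).baseChange ℂ x ∈ nor q (D X)) ?_ ?_ ?_ hx
  · rw [map_zero]; exact Submodule.zero_mem _
  · intro i s hs
    have hdim : (X.prod X).dim = X.dim + X.dim := Obj.dim_prod X X
    have h1 : twoPiI ^ j • ((1 : ℂ) ⊗ₜ[W.K] c) ∈ dd (D (X.prod X)) (2 * j) := hc.2
    have h2 := dd_mul (hD.alg _) h1 (dd_map hD (fst X X) hs)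
    rw [smul_mul_assoc] at h2
    rw [map_smul, corr_base]
    by_cases hij : 2 * X.dim ≤ 2 * j + i
    · obtain ⟨i', hi'⟩ : ∃ i', i' + 2 * X.dim = 2 * j + i := ⟨2 * j + i - 2 * X.dim, by omega⟩
      obtain ⟨b, hb, h3⟩ := puC_dd hD (snd X X) (i' := i') (by rw [hdim]; omega) h2
      rw [map_smul, smul_smul, ← pow_add, hdim] at h3
      have h4 : (q ^ i)⁻¹ • puC W (snd X X) (((1 : ℂ) ⊗ₜ[W.K] c) * hmap W (fst X X) s) =
          (q ^ i')⁻¹ • b := by
        have e0 : twoPiI ^ (X.dim + j) ≠ 0 := pow_ne_zero _ twoPiI_ne'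
        have e1 : puC W (snd X X) (((1 : ℂ) ⊗ₜ[W.K] c) * hmap W (fst X X) s) =
            ((twoPiI ^ (X.dim + j))⁻¹ * twoPiI ^ (X.dim + X.dim)) • b := by
          rw [← smul_smul, ← h3, smul_smul, inv_mul_cancel₀ e0, one_smul]
        rw [e1, smul_smul]
        congr 1
        rw [← hq2, ← pow_mul, ← pow_mul]
        have e2 : q ^ i ≠ 0 := pow_ne_zero _ hq
        have e3 : q ^ (2 * (X.dim + j)) ≠ 0 := pow_ne_zero _ hq
        have e4 : q ^ i' ≠ 0 := pow_ne_zero _ hq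
        field_simp
        rw [← pow_add, ← pow_add]
        congr 1
        omega
      rw [h4]
      exact nor_of hb
    · have h3 := puC_zero (snd X X) (by rw [hdim]; omega) (dd_gr (hD.alg _) h2)
      rw [map_smul] at h3
      rw [(smul_eq_zero.1 h3).resolve_left (pow_ne_zero _ twoPiI_ne'), smul_zero]
      exact Submodule.zero_mem _
  · intro x y hx hy; rw [map_add]; exact Submodule.add_mem _ hx hy

/-- The bound for the number of the periods of the normalised structure. -/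
lemma nor_le (hD : IsDeRhamTheory D) (hK : ∀ r : W.K, algebraMap W.K ℂ r ∈ F) (hq : q ≠ 0)
    (hq2 : q ^ 2 = twoPiI) {P : Property W} (hP : ∀ j c, P (X.prod X) j c →
      IsDRB D (X.prod X) j c) :
    FiniteDimensional F (perSub F (nor q (D X) : Set (ℂ ⊗[W.K] W.H X))) ∧
    finrank F (perSub F (nor q (D X) : Set (ℂ ⊗[W.K] W.H X))) ≤
      finrank W.K (commSub (corrs W X (Submodule.span W.K {c | ∃ j, P (X.prod X) j c}))) := by
  obtain ⟨h1, h2⟩ := CG.FRM.main W.K (W.H X) F (nor q (D X)) (nor_span hD hq) (trF W X)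
    (trF_nondeg W X) 1 one_ne_zero (fun x hx y hy => by
      rw [trF_base]; exact nor_tr hD hq hq2 hx hy)
  refine CG.PER.main CG.CBC.main W.K (W.H X) F hK (nor q (D X)) (nor_span hD hq) h1 h2 _ ?_
  rintro _ ⟨c, hc, rfl⟩ s hs
  refine Submodule.span_induction (p := fun c _ => (W.corr c).baseChange ℂ s ∈ nor q (D X))
    ?_ ?_ ?_ ?_ hc
  · rintro c ⟨j, hj⟩; exact nor_corr hD hq hq2 (hP j c hj) hs
  · rw [corr_zero, LinearMap.baseChange_zero]; exact Submodule.zero_mem _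
  · intro a b _ _ ha hb
    rw [corr_add, LinearMap.baseChange_add]
    exact Submodule.add_mem _ ha hb
  · intro r a _ ha
    rw [corr_smul, LinearMap.baseChange_smul]
    have h3 : r • (W.corr a).baseChange ℂ s = (⟨algebraMap W.K ℂ r, hK r⟩ : F) •
        (W.corr a).baseChange ℂ s := by
      rw [← algebraMap_smul ℂ r]
      rfl
    have h4 : (r • (W.corr a).baseChange ℂ) s = r • (W.corr a).baseChange ℂ s := rfl
    rw [h4, h3]
    exact Submodule.smul_mem _ _ ha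

/-- **The bound for the number of the periods.** -/
theorem perNum_le (hD : IsDeRhamTheory D) (hK : ∀ r : W.K, algebraMap W.K ℂ r ∈ F) (X : 𝒱.Obj)
    {P : Property W} (hP : ∀ j c, P (X.prod X) j c → IsDRB D (X.prod X) j c) :
    perNum D X ≤ (2 * X.dim + 1) *
      finrank W.K (commSub (corrs W X (Submodule.span W.K {c | ∃ j, P (X.prod X) j c}))) := by
  obtain ⟨q, hq2⟩ := IsAlgClosed.exists_pow_nat_eq twoPiI (n := 2) two_pos
  have hq : q ≠ 0 := by
    rintro rfl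
    rw [zero_pow two_ne_zero] at hq2
    exact twoPiI_ne' hq2.symm
  obtain ⟨h1, h2⟩ := nor_le hD hK hq hq2 hP
  set V := perSub F (nor q (D X) : Set (ℂ ⊗[W.K] W.H X)) with hV
  let Φ : (Fin (2 * X.dim + 1) → V) →ₗ[F] ℂ :=
    { toFun := fun v => ∑ i : Fin (2 * X.dim + 1), q ^ (i : ℕ) * (v i : ℂ)
      map_add' := fun v w => by
        rw [← Finset.sum_add_distrib]
        exact Finset.sum_congr rfl fun i _ => mul_add _ _ _
      map_smul' := fun r v => by
        rw [RingHom.id_apply, Finset.smul_sum]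
        refine Finset.sum_congr rfl fun i _ => ?_
        have e1 : ((r • v) i : ℂ) = (r : ℂ) * (v i : ℂ) := rfl
        have e2 : r • (q ^ (i : ℕ) * (v i : ℂ)) = (r : ℂ) * (q ^ (i : ℕ) * (v i : ℂ)) := rfl
        rw [e1, e2]
        ring }
  have h3 : periods (D X) ≤ LinearMap.range Φ := by
    refine Submodule.span_le.2 ?_
    rintro _ ⟨i, s, hs, l, rfl⟩
    have h5 : ∀ s : ℂ ⊗[W.K] W.H X, s ∈ dd (D X) i → ev l s ∈ LinearMap.range Φ := by
      intro s hs'
      by_cases hi : i < 2 * X.dim + 1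
      · refine ⟨Pi.single ⟨i, hi⟩ ⟨ev l ((q ^ i)⁻¹ • s), per_of (nor_of hs') l⟩, ?_⟩
        have e1 : Φ (Pi.single ⟨i, hi⟩ ⟨ev l ((q ^ i)⁻¹ • s), per_of (nor_of hs') l⟩) =
            ∑ j : Fin (2 * X.dim + 1), q ^ (j : ℕ) * ((Pi.single (M := fun _ => V) ⟨i, hi⟩
              (⟨ev l ((q ^ i)⁻¹ • s), per_of (nor_of hs') l⟩ : V) j : V) : ℂ) := rfl
        rw [e1, Finset.sum_eq_single ⟨i, hi⟩]
        · rw [Pi.single_eq_same]
          change q ^ i * ev l ((q ^ i)⁻¹ • s) = _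
          rw [map_smul, smul_eq_mul, ← mul_assoc, mul_inv_cancel₀ (pow_ne_zero _ hq), one_mul]
        · intro j _ hj
          rw [Pi.single_eq_of_ne hj]
          exact mul_zero _
        · intro h; exact absurd (Finset.mem_univ _) h
      · have h6 := dd_gr (hD.alg X) hs'
        rw [W.gr_eq_bot X i (by omega)] at h6
        rw [bc_zero h6, map_zero]
        exact Submodule.zero_mem _
    exact h5 s hs
  have h4 := Submodule.finrank_mono h3
  have h5 := LinearMap.finrank_range_le Φ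
  rw [Module.finrank_pi_fintype, Finset.sum_const, Finset.card_univ, Fintype.card_fin,
    smul_eq_mul] at h5
  exact h4.trans (h5.trans (Nat.mul_le_mul_left _ h2))

end Pool.Agent.H847.PG
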