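import Pool.Agent.H847.PG.RDefs
import Pool.Agent.H847.CG.StmP
import Mathlib

/-!
# Spaces of periods: algebra
-/

set_option linter.unusedSectionVars false
set_option linter.unusedVariables false

open TensorProduct

namespace Pool.Agent.H847.PG

open Module
open Pool.Agent.H847.CG (perSub)

section ev

variable {K A B C : Type} [Field K] [Algebra K ℂ] [AddCommGroup A] [Module K A] [AddCommGroup B]
  [Module K B] [AddCommGroup C] [Module K C] {F : Subfield ℂ}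

/-- The value of a functional with complex coefficients. -/
noncomputable def ev (l : A →ₗ[K] K) : (ℂ ⊗[K] A) →ₗ[ℂ] ℂ :=
  (TensorProduct.AlgebraTensorModule.rid K ℂ ℂ).toLinearMap ∘ₗ l.baseChange ℂ

lemma ev_tmul (l : A →ₗ[K] K) (z : ℂ) (a : A) : ev l (z ⊗ₜ[K] a) = z * algebraMap K ℂ (l a) := by
  have h : ev l (z ⊗ₜ[K] a) = l a • z := rfl
  rw [h, Algebra.smul_def, mul_comm]

lemma per_of {S : Set (ℂ ⊗[K] A)} {s : ℂ ⊗[K] A} (hs : s ∈ S) (l : A →ₗ[K] K) :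
    ev l s ∈ perSub F S := Submodule.subset_span ⟨s, hs, l, rfl⟩

lemma per_le {S : Set (ℂ ⊗[K] A)} {V : Submodule F ℂ}
    (h : ∀ s ∈ S, ∀ l : A →ₗ[K] K, ev l s ∈ V) : perSub F S ≤ V := by
  refine Submodule.span_le.2 ?_
  rintro _ ⟨s, hs, l, rfl⟩
  exact h s hs l

lemma ev_smulF (l : A →ₗ[K] K) (r : F) (s : ℂ ⊗[K] A) : ev l (r • s) = r • ev l s := by
  have h1 : r • s = (r : ℂ) • s := rfl
  rw [h1, map_smul]
  rfl

lemma per_mono {S T : Set (ℂ ⊗[K] A)} (h : S ⊆ T) : perSub F S ≤ perSub F T :=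
  per_le fun s hs l => per_of (h hs) l

/-- The periods of the span. -/
lemma per_span (S : Set (ℂ ⊗[K] A)) :
    perSub F (Submodule.span F S : Set (ℂ ⊗[K] A)) = perSub F S := by
  refine le_antisymm (per_le fun s hs l => ?_) (per_mono Submodule.subset_span)
  refine Submodule.span_induction (p := fun s _ => ev l s ∈ perSub F S) ?_ ?_ ?_ ?_ hs
  · intro s hs; exact per_of hs l
  · rw [map_zero]; exact Submodule.zero_mem _
  · intro s t _ _ hs ht; rw [map_add]; exact Submodule.add_mem _ hs ht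
  · intro r s _ hs; rw [ev_smulF]; exact Submodule.smul_mem _ _ hs

/-- The coordinates. -/
lemma ev_coord {ι : Type} [Fintype ι] (b : Basis ι K A) (s : ℂ ⊗[K] A) :
    s = ∑ i, ev (b.coord i) s • ((1 : ℂ) ⊗ₜ[K] b i) := by
  refine TensorProduct.induction_on s ?_ ?_ ?_
  · simp
  · intro z a
    have h1 : ∀ i, ev (b.coord i) (z ⊗ₜ[K] a) • ((1 : ℂ) ⊗ₜ[K] b i) =
        z ⊗ₜ[K] (b.repr a i • b i) := by
      intro i
      rw [ev_tmul, TensorProduct.smul_tmul', smul_eq_mul, mul_one, mul_comm, ← Algebra.smul_def,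
        TensorProduct.smul_tmul]
      rfl
    rw [Finset.sum_congr rfl fun i _ => h1 i, ← TensorProduct.tmul_sum, b.sum_repr]
  · intro x y hx hy
    conv_lhs => rw [hx, hy]
    rw [← Finset.sum_add_distrib]
    refine Finset.sum_congr rfl fun i _ => ?_
    rw [map_add, add_smul]

/-- A bilinear map which extends `μ` to complex coefficients. -/
structure IsExt (μ : A ⊗[K] B ≃ₗ[K] C) (m : (ℂ ⊗[K] A) → (ℂ ⊗[K] B) → (ℂ ⊗[K] C)) : Prop where
  addl : ∀ x x' y, m (x + x') y = m x y + m x' y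
  addr : ∀ x y y', m x (y + y') = m x y + m x y'
  smul : ∀ (z w : ℂ) x y, m (z • x) (w • y) = (z * w) • m x y
  em : ∀ a b, m (1 ⊗ₜ[K] a) (1 ⊗ₜ[K] b) = 1 ⊗ₜ[K] μ (a ⊗ₜ[K] b)

lemma IsExt.zerol {μ : A ⊗[K] B ≃ₗ[K] C} {m : (ℂ ⊗[K] A) → (ℂ ⊗[K] B) → (ℂ ⊗[K] C)}
    (h : IsExt μ m) (y : ℂ ⊗[K] B) : m 0 y = 0 := by
  have h1 := h.addl 0 0 y
  rw [add_zero] at h1
  exact left_eq_add.1 h1

lemma IsExt.zeror {μ : A ⊗[K] B ≃ₗ[K] C} {m : (ℂ ⊗[K] A) → (ℂ ⊗[K] B) → (ℂ ⊗[K] C)}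
    (h : IsExt μ m) (x : ℂ ⊗[K] A) : m x 0 = 0 := by
  have h1 := h.addr x 0 0
  rw [add_zero] at h1
  exact left_eq_add.1 h1

lemma IsExt.sum {μ : A ⊗[K] B ≃ₗ[K] C} {m : (ℂ ⊗[K] A) → (ℂ ⊗[K] B) → (ℂ ⊗[K] C)}
    (h : IsExt μ m) {ι κ : Type} (s : Finset ι) (t : Finset κ) (z : ι → ℂ) (w : κ → ℂ)
    (a : ι → A) (b : κ → B) :
    m (∑ i ∈ s, z i • ((1 : ℂ) ⊗ₜ[K] a i)) (∑ j ∈ t, w j • ((1 : ℂ) ⊗ₜ[K] b j)) =
      ∑ i ∈ s, ∑ j ∈ t, (z i * w j) • ((1 : ℂ) ⊗ₜ[K] μ (a i ⊗ₜ[K] b j)) := by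
  classical
  induction s using Finset.induction_on with
  | empty => simp [h.zerol]
  | insert i s hi ih =>
    rw [Finset.sum_insert hi, h.addl, ih, Finset.sum_insert hi]
    congr 1
    clear ih
    induction t using Finset.induction_on with
    | empty => simp [h.zeror]
    | insert j t hj ih => rw [Finset.sum_insert hj, h.addr, ih, Finset.sum_insert hj, h.smul, h.em]

/-- Products of functionals. -/
lemma IsExt.ev_mul {μ : A ⊗[K] B ≃ₗ[K] C} {m : (ℂ ⊗[K] A) → (ℂ ⊗[K] B) → (ℂ ⊗[K] C)}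
    (h : IsExt μ m) (l : A →ₗ[K] K) (l' : B →ₗ[K] K) (x : ℂ ⊗[K] A) (y : ℂ ⊗[K] B) :
    ev ((TensorProduct.lift ((LinearMap.mul K K).compl₁₂ l l')) ∘ₗ μ.symm.toLinearMap) (m x y) =
      ev l x * ev l' y := by
  refine TensorProduct.induction_on x ?_ ?_ ?_
  · rw [h.zerol, map_zero, map_zero, zero_mul]
  · intro z a
    refine TensorProduct.induction_on y ?_ ?_ ?_
    · rw [h.zeror, map_zero, map_zero, mul_zero]
    · intro w b
      have h1 : m (z ⊗ₜ[K] a) (w ⊗ₜ[K] b) = (z * w) • ((1 : ℂ) ⊗ₜ[K] μ (a ⊗ₜ[K] b)) := by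
        have e1 : (z ⊗ₜ[K] a : ℂ ⊗[K] A) = z • ((1 : ℂ) ⊗ₜ[K] a) := by
          rw [TensorProduct.smul_tmul', smul_eq_mul, mul_one]
        have e2 : (w ⊗ₜ[K] b : ℂ ⊗[K] B) = w • ((1 : ℂ) ⊗ₜ[K] b) := by
          rw [TensorProduct.smul_tmul', smul_eq_mul, mul_one]
        rw [e1, e2, h.smul, h.em]
      rw [h1, map_smul, ev_tmul, ev_tmul, ev_tmul, LinearMap.comp_apply, LinearEquiv.coe_coe,
        LinearEquiv.symm_apply_apply, TensorProduct.lift.tmul]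
      have h2 : ((LinearMap.mul K K).compl₁₂ l l') a b = l a * l' b := rfl
      rw [h2, map_mul, smul_eq_mul]
      ring
    · intro y y' hy hy'
      rw [h.addr, map_add, hy, hy', map_add, mul_add]
  · intro x x' hx hx'
    rw [h.addl, map_add, hx, hx', map_add, add_mul]

/-- **The periods of a product.** -/
theorem IsExt.per_eq [FiniteDimensional K A] [FiniteDimensional K B] {μ : A ⊗[K] B ≃ₗ[K] C}
    {m : (ℂ ⊗[K] A) → (ℂ ⊗[K] B) → (ℂ ⊗[K] C)} (h : IsExt μ m)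
    (hF : ∀ r : K, algebraMap K ℂ r ∈ F) {U : Set (ℂ ⊗[K] A)} {V : Set (ℂ ⊗[K] B)}
    {T : Set (ℂ ⊗[K] C)} (h1 : ∀ u ∈ U, ∀ v ∈ V, m u v ∈ T)
    (h2 : T ⊆ Submodule.span F {w | ∃ u ∈ U, ∃ v ∈ V, w = m u v}) :
    perSub F T = perSub F U * perSub F V := by
  apply le_antisymm
  · refine (per_mono h2).trans ?_
    rw [per_span]
    refine per_le ?_
    rintro _ ⟨u, hu, v, hv, rfl⟩ l
    let a := Module.finBasis K A
    let b := Module.finBasis K B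
    have e1 := ev_coord a u
    have e2 := ev_coord b v
    have e3 : m u v = ∑ i, ∑ j, (ev (a.coord i) u * ev (b.coord j) v) •
        ((1 : ℂ) ⊗ₜ[K] μ (a i ⊗ₜ[K] b j)) := by
      conv_lhs => rw [e1, e2]
      exact h.sum _ _ _ _ _ _
    rw [e3, map_sum]
    refine Submodule.sum_mem _ fun i _ => ?_
    rw [map_sum]
    refine Submodule.sum_mem _ fun j _ => ?_
    rw [map_smul, ev_tmul, one_mul, smul_eq_mul]
    have h5 := Submodule.smul_mem (perSub F U * perSub F V)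
      (⟨algebraMap K ℂ (l (μ (a i ⊗ₜ[K] b j))), hF _⟩ : F)
      (Submodule.mul_mem_mul (per_of hu (a.coord i)) (per_of hv (b.coord j)))
    have h6 : ev (a.coord i) u * ev (b.coord j) v * algebraMap K ℂ (l (μ (a i ⊗ₜ[K] b j))) =
        (⟨algebraMap K ℂ (l (μ (a i ⊗ₜ[K] b j))), hF _⟩ : F) •
          (ev (a.coord i) u * ev (b.coord j) v) := mul_comm _ _
    rw [h6]
    exact h5
  · rw [perSub, perSub, Submodule.span_mul_span]
    refine Submodule.span_le.2 ?_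
    rintro _ ⟨_, ⟨u, hu, l, rfl⟩, _, ⟨v, hv, l', rfl⟩, rfl⟩
    have h3 := h.ev_mul l l' u v
    have h4 : ev ((TensorProduct.lift ((LinearMap.mul K K).compl₁₂ l l')) ∘ₗ
      μ.symm.toLinearMap) (m u v) ∈ perSub F T := per_of (h1 u hu v hv) _
    rw [h3] at h4
    exact h4

end ev

end Pool.Agent.H847.PG
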