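import Pool.Agent.H847.PG.RConv
import Pool.Agent.H847.CG.FRM
import Pool.Agent.H847.CG.PER
import Pool.Agent.H847.CG.TRD

/-!
# The periods of the powers
-/

set_option linter.unusedSectionVars false
set_option linter.unusedVariables false

open CategoryTheory AlgebraicGeometry CategoryTheory.Limits TensorProduct

universe u v w

namespace Pool.Agent.H847.PG

open Pool.Agent.H914 Pool.Agent.H447 Pool.Agent.W534 Pool.Agent.Y163 VarClass Obj WeilCohomology
  Module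
open Pool.Agent.Y121 Pool.Agent.Y121.AHS Pool.Agent.R914.UN
open Pool.Agent.Y133.Half (Sys PH Ev Adj ClassPred dimBy)
open Pool.Agent.Y133.Per (mem_of_pair baseTr_nondeg)
open Pool.Agent.R920.MT (Property Linear IsSubspace)
open Pool.Agent.H847.CG (perSub trF)

section alg

variable {K A : Type} [Field K] [Ring A] [Algebra K A] [Algebra K ℂ] {F : Subfield ℂ}

lemma periods_eq (D : DRSub K A F) : periods D = perSub F (tot D : Set (ℂ ⊗[K] A)) := by
  apply le_antisymm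
  · refine Submodule.span_le.2 ?_
    rintro _ ⟨i, s, hs, l, rfl⟩
    exact per_of (tot_of (i := i) hs) l
  · refine per_le fun s hs l => ?_
    refine tot_ind (p := fun s => ev l s ∈ periods D) ?_ ?_ ?_ hs
    · rw [map_zero]; exact Submodule.zero_mem _
    · intro i s hs; exact Submodule.subset_span ⟨i, s, hs, l, rfl⟩
    · intro x y hx hy; rw [map_add]; exact Submodule.add_mem _ hx hy

end alg

variable {k : Type u} [Field k] {𝒱 : VarClass k} {ops : CycleOps 𝒱}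
  {W : WeilCohomology.{u, 0} ops} [Algebra W.K ℂ] {F : Subfield ℂ} {D : DRFam W F} {X Y Z : 𝒱.Obj}

/-- The external product. -/
noncomputable def mX (W : WeilCohomology.{u, 0} ops) [Algebra W.K ℂ] (X Y : 𝒱.Obj)
    (x : ℂ ⊗[W.K] W.H X) (y : ℂ ⊗[W.K] W.H Y) : ℂ ⊗[W.K] W.H (X.prod Y) :=
  hmap W (fst X Y) x * hmap W (snd X Y) y

lemma isExt_mX : IsExt (kappa W X Y) (mX W X Y) where
  addl x x' y := by rw [mX, map_add, add_mul]; rfl
  addr x y y' := by rw [mX, map_add, mul_add]; rfl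
  smul z w x y := by
    rw [mX, map_smul, map_smul, smul_mul_assoc, mul_smul_comm, smul_smul]
    rfl
  em a b := by
    rw [mX, hmap_tmul, hmap_tmul, Algebra.TensorProduct.tmul_mul_tmul, one_mul, kappa_tmul]

/-- The trace pairing. -/
noncomputable def trB (W : WeilCohomology.{u, 0} ops) [Algebra W.K ℂ] (X : 𝒱.Obj) :
    (ℂ ⊗[W.K] W.H X) →ₗ[ℂ] (ℂ ⊗[W.K] W.H X) →ₗ[ℂ] ℂ :=
  (twoPiI ^ X.dim)⁻¹ • ((LinearMap.mul ℂ (ℂ ⊗[W.K] W.H X)).compr₂ (ev (W.tr X)))

lemma trB_apply (x y : ℂ ⊗[W.K] W.H X) :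
    trB W X x y = (twoPiI ^ X.dim)⁻¹ * ev (W.tr X) (x * y) := rfl

lemma twoPiI_ne' : twoPiI ≠ 0 := Complex.two_pi_I_ne_zero

lemma trB_mem {x y : ℂ ⊗[W.K] W.H X}
    (h : ∃ r ∈ F, ev (W.tr X) (x * y) = twoPiI ^ X.dim * r) : trB W X x y ∈ F := by
  obtain ⟨r, hr, h⟩ := h
  rw [trB_apply, h, ← mul_assoc, inv_mul_cancel₀ (pow_ne_zero _ twoPiI_ne'), one_mul]
  exact hr

lemma trB_nondeg {x : ℂ ⊗[W.K] W.H X} (h : ∀ y, trB W X x y = 0) : x = 0 := by
  refine baseTr_nondeg (W.tr X) (Pool.Agent.Y133.Half.exists_dual_class W) (a := x) fun b => ?_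
  have h1 := (trB_apply (W := W) (X := X) x b).symm.trans (h b)
  exact (mul_eq_zero.1 h1).resolve_left (inv_ne_zero (pow_ne_zero _ twoPiI_ne'))

lemma span_ext (hD : IsDeRhamTheory D) : Submodule.span ℂ
    (Submodule.span F {w | ∃ u ∈ (tot (D X) : Set (ℂ ⊗[W.K] W.H X)),
      ∃ v ∈ (tot (D Y) : Set (ℂ ⊗[W.K] W.H Y)), w = mX W X Y u v} :
        Set (ℂ ⊗[W.K] W.H (X.prod Y))) = ⊤ := by
  set P : Submodule ℂ (ℂ ⊗[W.K] W.H (X.prod Y)) := Submodule.span ℂ
    (Submodule.span F {w | ∃ u ∈ (tot (D X) : Set (ℂ ⊗[W.K] W.H X)),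
      ∃ v ∈ (tot (D Y) : Set (ℂ ⊗[W.K] W.H Y)), w = mX W X Y u v} :
        Set (ℂ ⊗[W.K] W.H (X.prod Y))) with hP
  have hm := isExt_mX (W := W) (X := X) (Y := Y)
  have h1 : ∀ u ∈ tot (D X), ∀ v ∈ tot (D Y), mX W X Y u v ∈ P := fun u hu v hv =>
    Submodule.subset_span (Submodule.subset_span ⟨u, hu, v, hv, rfl⟩)
  have h2 : ∀ u : ℂ ⊗[W.K] W.H X, ∀ v ∈ tot (D Y), mX W X Y u v ∈ P := by
    intro u v hv
    have hu : u ∈ Submodule.span ℂ (tot (D X) : Set (ℂ ⊗[W.K] W.H X)) := by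
      rw [tot_span hD]; exact Submodule.mem_top
    refine Submodule.span_induction (p := fun u _ => mX W X Y u v ∈ P) ?_ ?_ ?_ ?_ hu
    · intro u hu; exact h1 u hu v hv
    · rw [hm.zerol]; exact Submodule.zero_mem _
    · intro x y _ _ hx hy; rw [hm.addl]; exact Submodule.add_mem _ hx hy
    · intro z x _ hx
      have := hm.smul z 1 x v
      rw [one_smul, mul_one] at this
      rw [this]
      exact Submodule.smul_mem _ _ hx
  have h3 : ∀ (u : ℂ ⊗[W.K] W.H X) (v : ℂ ⊗[W.K] W.H Y), mX W X Y u v ∈ P := by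
    intro u v
    have hv : v ∈ Submodule.span ℂ (tot (D Y) : Set (ℂ ⊗[W.K] W.H Y)) := by
      rw [tot_span hD]; exact Submodule.mem_top
    refine Submodule.span_induction (p := fun v _ => mX W X Y u v ∈ P) ?_ ?_ ?_ ?_ hv
    · intro v hv; exact h2 u v hv
    · rw [hm.zeror]; exact Submodule.zero_mem _
    · intro x y _ _ hx hy; rw [hm.addr]; exact Submodule.add_mem _ hx hy
    · intro z x _ hx
      have := hm.smul 1 z u x
      rw [one_smul, one_mul] at this
      rw [this]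
      exact Submodule.smul_mem _ _ hx
  rw [eq_top_iff]
  rintro x -
  refine base_ind' (p := fun x => x ∈ P) (Submodule.zero_mem _) ?_
    (fun x y hx hy => Submodule.add_mem _ hx hy) x
  intro z c
  refine W.kunneth_induction (p := fun c => (z ⊗ₜ[W.K] c : ℂ ⊗[W.K] W.H (X.prod Y)) ∈ P)
    ?_ ?_ c
  · intro a b ha hb
    rw [TensorProduct.tmul_add]
    exact Submodule.add_mem _ ha hb
  · intro i j a _ b _
    have h4 := h3 (z ⊗ₜ[W.K] a) (1 ⊗ₜ[W.K] b)
    have h5 : mX W X Y (z ⊗ₜ[W.K] a) (1 ⊗ₜ[W.K] b) =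
        z ⊗ₜ[W.K] (W.map (fst X Y) a * W.map (snd X Y) b) := by
      rw [mX, hmap_tmul, hmap_tmul, Algebra.TensorProduct.tmul_mul_tmul, mul_one]
    rw [h5] at h4
    exact h4

/-- The de Rham cohomology of a product. -/
lemma tot_prod (hD : IsDeRhamTheory D) : (tot (D (X.prod Y)) : Set (ℂ ⊗[W.K] W.H (X.prod Y))) ⊆
    Submodule.span F {w | ∃ u ∈ (tot (D X) : Set (ℂ ⊗[W.K] W.H X)),
      ∃ v ∈ (tot (D Y) : Set (ℂ ⊗[W.K] W.H Y)), w = mX W X Y u v} := by
  intro w hw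
  have hle : Submodule.span F {w | ∃ u ∈ (tot (D X) : Set (ℂ ⊗[W.K] W.H X)),
      ∃ v ∈ (tot (D Y) : Set (ℂ ⊗[W.K] W.H Y)), w = mX W X Y u v} ≤ tot (D (X.prod Y)) := by
    refine Submodule.span_le.2 ?_
    rintro _ ⟨u, hu, v, hv, rfl⟩
    exact tot_mul hD (tot_map hD _ hu) (tot_map hD _ hv)
  refine mem_of_pair _ (span_ext hD) (trB W (X.prod Y)) (fun x h => trB_nondeg h) ?_ ?_
  · intro x hx y hy
    exact trB_mem (tot_tr hD (tot_mul hD (hle hx) (hle hy)))
  · intro y hy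
    exact trB_mem (tot_tr hD (tot_mul hD hw (hle hy)))

/-- The periods of a product. -/
theorem per_prod (hD : IsDeRhamTheory D) (hK : ∀ r : W.K, algebraMap W.K ℂ r ∈ F) :
    periods (D (X.prod Y)) = periods (D X) * periods (D Y) := by
  rw [periods_eq, periods_eq, periods_eq]
  exact (isExt_mX (W := W) (X := X) (Y := Y)).per_eq hK
    (fun u hu v hv => tot_mul hD (tot_map hD _ hu) (tot_map hD _ hv)) (tot_prod hD)

/-- The periods of a power. -/
theorem per_pow (hD : IsDeRhamTheory D) (hK : ∀ r : W.K, algebraMap W.K ℂ r ∈ F) (X : 𝒱.Obj) :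
    ∀ n, periods (D (pw X n)) = (periods (D X)) ^ (n + 1)
  | 0 => (pow_one _).symm
  | n + 1 => by
    have h1 := per_pow hD hK X n
    have h2 := per_prod hD hK (X := X) (Y := pw X n)
    rw [h1, ← pow_succ'] at h2
    exact h2

/-- The intersection form is nondegenerate. -/
lemma trF_nondeg (W : WeilCohomology.{u, 0} ops) (X : 𝒱.Obj) : (trF W X).Nondegenerate := by
  refine LinearMap.BilinForm.Nondegenerate.ofSeparatingLeft ?_
  intro x hx
  exact W.nondeg x fun y => hx y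

lemma trF_base (x y : ℂ ⊗[W.K] W.H X) :
    (LinearMap.BilinForm.baseChange ℂ (trF W X)) x y = ev (W.tr X) (x * y) := by
  refine base_ind' (p := fun x => (LinearMap.BilinForm.baseChange ℂ (trF W X)) x y =
    ev (W.tr X) (x * y)) ?_ ?_ ?_ x
  · rw [map_zero, zero_mul, map_zero]; rfl
  · intro z a
    refine base_ind' (p := fun y => (LinearMap.BilinForm.baseChange ℂ (trF W X))
      (z ⊗ₜ[W.K] a) y = ev (W.tr X) (z ⊗ₜ[W.K] a * y)) ?_ ?_ ?_ y
    · rw [map_zero, mul_zero, map_zero]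
    · intro w b
      rw [LinearMap.BilinForm.baseChange_tmul, Algebra.TensorProduct.tmul_mul_tmul, ev_tmul,
        CG.trF_apply, Algebra.smul_def, mul_comm]
    · intro y y' hy hy'
      rw [map_add, hy, hy', mul_add, map_add]
  · intro x x' hx hx'
    rw [map_add, LinearMap.add_apply, hx, hx', add_mul, map_add]

/-- The space of the periods is finite-dimensional. -/
lemma per_finite (hD : IsDeRhamTheory D) (hK : ∀ r : W.K, algebraMap W.K ℂ r ∈ F) (X : 𝒱.Obj) :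
    FiniteDimensional F (periods (D X)) := by
  rw [periods_eq]
  obtain ⟨h1, h2⟩ := CG.FRM.main W.K (W.H X) F (tot (D X)) (tot_span hD) (trF W X)
    (trF_nondeg W X) (twoPiI ^ X.dim) (pow_ne_zero _ twoPiI_ne') (fun x hx y hy => by
      rw [trF_base]; exact tot_tr hD (tot_mul hD hx hy))
  exact (CG.PER.main CG.CBC.main W.K (W.H X) F hK (tot (D X)) (tot_span hD) h1 h2 ∅
    (fun a ha => absurd ha (Set.notMem_empty a))).1

lemma one_tot (hD : IsDeRhamTheory D) (X : 𝒱.Obj) :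
    ((1 : ℂ) ⊗ₜ[W.K] (1 : W.H X) : ℂ ⊗[W.K] W.H X) ∈ tot (D X) := by
  have h1 := dd_cyc hD (X := X) (j := 0) (z := X.V.fundCycle) (SmVar.fundCycle_mem _)
  rw [pow_zero, W.cl_fund] at h1
  exact tot_of h1

lemma one_per (hD : IsDeRhamTheory D) (X : 𝒱.Obj) [Nontrivial (W.H X)] :
    (1 : ℂ) ∈ periods (D X) := by
  rw [periods_eq]
  obtain ⟨l, hl⟩ : ∃ l : W.H X →ₗ[W.K] W.K, l 1 = 1 := by
    by_contra hcon
    push Not at hcon
    apply one_ne_zero (α := W.H X)
    refine (Module.forall_dual_apply_eq_zero_iff W.K (1 : W.H X)).1 fun φ => ?_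
    by_contra hφ
    exact hcon ((φ 1)⁻¹ • φ) (inv_mul_cancel₀ hφ)
  have h1 := per_of (F := F) (one_tot hD X) l
  rw [ev_tmul, hl, map_one, mul_one] at h1
  exact h1

/-- The growth of the spaces of the periods of the powers. -/
theorem per_growth (hD : IsDeRhamTheory D) (hK : ∀ r : W.K, algebraMap W.K ℂ r ∈ F) (X : 𝒱.Obj)
    [Nontrivial (W.H X)] :
    ∃ t : ℕ, PerDeg D X t ∧ HasPoly t fun n => perNum D (pw X n) := by
  obtain ⟨t, h1, h2, c, C, hc, h3⟩ := CG.TRD.main F ℂ (periods (D X)) (per_finite hD hK X)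
    (one_per hD X)
  refine ⟨t, ⟨h1, h2⟩, c, C, hc, fun n => ?_⟩
  have h4 : perNum D (pw X n) =
      finrank F ((periods (D X)) ^ (n + 1) : Submodule F ℂ) := by
    rw [perNum, per_pow hD hK]
  have h5 := h3 n
  rw [← h4] at h5
  exact h5

end Pool.Agent.H847.PG
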